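import Pool.Agent.Q61.AC3

set_option autoImplicit false

open MeasureTheory Topology Filter Set
open scoped ContDiff

namespace Q279.TS

/-- smooth step, `0` for `t ≤ 24/25 - 1/200000`, `1` for `t ≥ 24/25 + 1/200000` -/
noncomputable def j (t : ℝ) : ℝ := Real.smoothTransition (100000 * (t - 24 / 25) + 1 / 2)

theorem j_smooth {k : ℕ∞} : ContDiff ℝ k j := by
  unfold j
  exact Real.smoothTransition.contDiff.comp
    ((contDiff_const.mul (contDiff_id.sub contDiff_const)).add contDiff_const)

theorem j_cont : Continuous j := (j_smooth (k := 0)).continuous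

theorem j_nonneg (t : ℝ) : 0 ≤ j t := Real.smoothTransition.nonneg _
theorem j_le (t : ℝ) : j t ≤ 1 := Real.smoothTransition.le_one _

theorem j_mono : Monotone j := by
  intro a b h
  unfold j
  exact Real.smoothTransition.monotone (by linarith)

theorem j_zero {t : ℝ} (h : t ≤ 24 / 25 - 1 / 200000) : j t = 0 := by
  unfold j
  exact Real.smoothTransition.zero_of_nonpos (by linarith)

theorem j_one {t : ℝ} (h : 24 / 25 + 1 / 200000 ≤ t) : j t = 1 := by
  unfold j
  exact Real.smoothTransition.one_of_one_le (by linarith)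

theorem j_symm (t : ℝ) : j (48 / 25 - t) = 1 - j t := by
  unfold j
  rw [← Q61.AC.S_symm]
  congr 1
  ring

/-- derivative of the step -/
noncomputable def dj (t : ℝ) : ℝ := deriv j t

theorem j_deriv (t : ℝ) : HasDerivAt j (dj t) t :=
  ((j_smooth (k := ⊤)).differentiable (by norm_num) t).hasDerivAt

theorem dj_smooth : ContDiff ℝ ∞ dj := by
  have h := (contDiff_infty_iff_deriv.1 (j_smooth (k := ⊤))).2
  exact h

theorem dj_nonneg (t : ℝ) : 0 ≤ dj t := j_mono.deriv_nonneg

theorem dj_event {t : ℝ} (h : 1 / 200000 < |t - 24 / 25|) : dj =ᶠ[𝓝 t] fun _ => 0 := by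
  rcases lt_or_ge t (24 / 25) with h0 | h0
  · rw [abs_of_neg (by linarith)] at h
    have hU : ∀ᶠ y in 𝓝 t, y < 24 / 25 - 1 / 200000 := Iio_mem_nhds (by linarith)
    filter_upwards [hU] with y hy
    have h2 : j =ᶠ[𝓝 y] fun _ => 0 := by
      filter_upwards [Iio_mem_nhds hy] with z hz
      exact j_zero (le_of_lt hz)
    unfold dj
    rw [h2.deriv_eq]; simp
  · rw [abs_of_nonneg (by linarith)] at h
    have hU : ∀ᶠ y in 𝓝 t, 24 / 25 + 1 / 200000 < y := Ioi_mem_nhds (by linarith)
    filter_upwards [hU] with y hy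
    have h2 : j =ᶠ[𝓝 y] fun _ => 1 := by
      filter_upwards [Ioi_mem_nhds hy] with z hz
      exact j_one (le_of_lt hz)
    unfold dj
    rw [h2.deriv_eq]; simp

theorem dj_zero {t : ℝ} (h : 1 / 200000 < |t - 24 / 25|) : dj t = 0 := (dj_event h).self_of_nhds

/-- the step function is not locally constant everywhere -/
theorem exists_dj : ∃ t, |t - 24 / 25| ≤ 1 / 200000 ∧ 0 < dj t := by
  obtain ⟨t, ht⟩ : ∃ t, dj t ≠ 0 := by
    by_contra hcon
    push Not at hcon
    have hd : Differentiable ℝ j := (j_smooth (k := ⊤)).differentiable (by norm_num)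
    have := is_const_of_deriv_eq_zero hd hcon 0 1
    rw [j_zero (by norm_num), j_one (by norm_num)] at this
    norm_num at this
  refine ⟨t, ?_, lt_of_le_of_ne (dj_nonneg t) (Ne.symm ht)⟩
  by_contra hcon
  exact ht (dj_zero (not_le.1 hcon))

/-- `25` times the primitive of the step -/
noncomputable def E (t : ℝ) : ℝ := 25 * ∫ s in (0:ℝ)..t, j s

theorem E_deriv (t : ℝ) : HasDerivAt E (25 * j t) t :=
  ((Q61.AC.prim_smooth (j_smooth (k := ⊤))).2 t).const_mul 25

theorem E_smooth : ContDiff ℝ ∞ E := contDiff_const.mul (Q61.AC.prim_smooth (j_smooth (k := ⊤))).1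

theorem E_zero {t : ℝ} (h : t ≤ 24 / 25 - 1 / 200000) : E t = 0 := by
  unfold E
  have h1 : ∫ s in (0:ℝ)..t, j s = ∫ _s in (0:ℝ)..t, (0:ℝ) := by
    apply intervalIntegral.integral_congr
    intro s hs
    apply j_zero
    rcases le_total 0 t with h0 | h0
    · rw [uIcc_of_le h0] at hs; linarith [hs.2]
    · rw [uIcc_of_ge h0] at hs; linarith [hs.2]
  rw [h1]; simp

theorem E_mono : Monotone E := by
  have hd : ∀ t, deriv E t = 25 * j t := fun t => (E_deriv t).deriv
  apply monotone_of_deriv_nonneg (fun t => (E_deriv t).differentiableAt)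
  intro t
  rw [hd]
  have := j_nonneg t
  positivity

theorem E_nonneg (t : ℝ) : 0 ≤ E t := by
  rcases le_total t (24 / 25 - 1 / 200000) with h | h
  · rw [E_zero h]
  · rw [← E_zero (le_refl (24 / 25 - 1 / 200000))]; exact E_mono h

theorem E_sub (a b : ℝ) : E b - E a = 25 * ∫ s in a..b, j s := by
  unfold E
  rw [← mul_sub, intervalIntegral.integral_interval_sub_left (j_cont.intervalIntegrable _ _)
    (j_cont.intervalIntegrable _ _)]

theorem E_sub_le {a b : ℝ} (h : a ≤ b) : E b - E a ≤ 25 * (b - a) := by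
  rw [E_sub]
  have h1 : ∫ s in a..b, j s ≤ ∫ _s in a..b, (1:ℝ) :=
    intervalIntegral.integral_mono_on h (j_cont.intervalIntegrable _ _) intervalIntegrable_const
      (fun s _ => j_le s)
  rw [intervalIntegral.integral_const, smul_eq_mul, mul_one] at h1
  linarith

theorem E_lin {a b : ℝ} (ha : 24 / 25 + 1 / 200000 ≤ a) (h : a ≤ b) : E b - E a = 25 * (b - a) := by
  rw [E_sub]
  have h1 : ∫ s in a..b, j s = ∫ _s in a..b, (1:ℝ) := by
    apply intervalIntegral.integral_congr
    intro s hs
    rw [uIcc_of_le h] at hs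
    exact j_one (by linarith [hs.1])
  rw [h1, intervalIntegral.integral_const, smul_eq_mul, mul_one]

theorem E_one : E 1 = 1 := by
  have h1 := E_lin (a := 24 / 25 + 1 / 200000) (b := 1) le_rfl (by norm_num)
  have h2 := E_sub (24 / 25 - 1 / 200000) (24 / 25 + 1 / 200000)
  rw [E_zero (le_refl _)] at h2
  have h3 : ∫ s in (24 / 25 - 1 / 200000 : ℝ)..(24 / 25 + 1 / 200000), j s =
      ∫ s in (24 / 25 - 1 / 200000 : ℝ)..(24 / 25 + 1 / 200000), j (48 / 25 - s) := by
    rw [intervalIntegral.integral_comp_sub_left (f := j)]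
    norm_num
  simp only [j_symm] at h3
  rw [intervalIntegral.integral_sub intervalIntegrable_const (j_cont.intervalIntegrable _ _),
    intervalIntegral.integral_const, smul_eq_mul, mul_one] at h3
  linarith

theorem E_lt_one {t : ℝ} (h : t < 1) : E t < 1 := by
  have h2 := E_mono (le_max_left t (24 / 25 + 1 / 200000))
  have h3 := E_lin (a := max t (24 / 25 + 1 / 200000)) (b := 1) (le_max_right _ _) (max_le h.le (by norm_num))
  have h4 : max t (24 / 25 + 1 / 200000) < 1 := max_lt h (by norm_num)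
  rw [E_one] at h3
  linarith

end Q279.TS
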