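import Pool.Agent.Q279.TS.R1

set_option autoImplicit false

open MeasureTheory Topology Filter Set
open scoped ContDiff

namespace Q279.TS

/-- the first profile -/
noncomputable def w (t : ℝ) : ℝ := 34 + 125 / 4 * t - 257 / 4 * E t - 7 / 4 * E (-t)

/-- the small symmetric profile -/
noncomputable def w3 (ε t : ℝ) : ℝ := 1 + ε - ε * (E t + E (-t))

theorem w_smooth : ContDiff ℝ ∞ w := by
  unfold w
  exact ((contDiff_const.add (contDiff_const.mul contDiff_id)).sub (contDiff_const.mul E_smooth)).sub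
    (contDiff_const.mul (E_smooth.comp contDiff_neg))

theorem w3_smooth (ε : ℝ) : ContDiff ℝ ∞ (w3 ε) := by
  unfold w3
  exact contDiff_const.sub (contDiff_const.mul (E_smooth.add (E_smooth.comp contDiff_neg)))

theorem Eneg_deriv (t : ℝ) : HasDerivAt (fun s => E (-s)) (-(25 * j (-t))) t := by
  have := (E_deriv (-t)).comp t (hasDerivAt_neg t)
  refine this.congr_deriv ?_
  ring

theorem jneg_deriv (t : ℝ) : HasDerivAt (fun s => j (-s)) (-dj (-t)) t := by
  have := (j_deriv (-t)).comp t (hasDerivAt_neg t)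
  refine this.congr_deriv ?_
  ring

/-- first derivative of the profile -/
noncomputable def w' (t : ℝ) : ℝ := 25 * (5 / 4 - 257 / 4 * j t + 7 / 4 * j (-t))

theorem w_deriv (t : ℝ) : HasDerivAt w (w' t) t := by
  have h := ((((hasDerivAt_id t).const_mul (125 / 4)).const_add 34).sub ((E_deriv t).const_mul (257 / 4))).sub
    ((Eneg_deriv t).const_mul (7 / 4))
  refine h.congr_deriv ?_
  unfold w'; ring

theorem w'_deriv (t : ℝ) : HasDerivAt w' (-(25 * (257 / 4 * dj t + 7 / 4 * dj (-t)))) t := by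
  have h := ((((j_deriv t).const_mul (257 / 4)).const_sub (5 / 4)).add ((jneg_deriv t).const_mul (7 / 4))).const_mul 25
  refine h.congr_deriv ?_
  ring

noncomputable def w3' (ε t : ℝ) : ℝ := -(25 * (ε * (j t - j (-t))))

theorem w3_deriv (ε t : ℝ) : HasDerivAt (w3 ε) (w3' ε t) t := by
  have h := ((((E_deriv t).add (Eneg_deriv t)).const_mul ε).const_sub (1 + ε))
  refine h.congr_deriv ?_
  unfold w3'; ring

theorem w3'_deriv (ε t : ℝ) : HasDerivAt (w3' ε) (-(25 * (ε * (dj t + dj (-t))))) t := by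
  have h := ((((j_deriv t).sub (jneg_deriv t)).const_mul ε).const_mul 25).neg
  refine h.congr_deriv ?_
  ring

theorem w3_even (ε t : ℝ) : w3 ε (-t) = w3 ε t := by unfold w3; rw [neg_neg]; ring

/-! values -/

theorem E_neg_zero {t : ℝ} (h : -(1 / 2) ≤ t) : E (-t) = 0 := E_zero (by linarith)
theorem j_neg_zero {t : ℝ} (h : -(1 / 2) ≤ t) : j (-t) = 0 := j_zero (by linarith)
theorem dj_neg_zero {t : ℝ} (h : -(1 / 2) ≤ t) : dj (-t) = 0 := by
  apply dj_zero
  rw [abs_of_neg (by linarith)]; linarith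

theorem E_le_one {t : ℝ} (h : t ≤ 1) : E t ≤ 1 := by rw [← E_one]; exact E_mono h

theorem E_le_max {t : ℝ} (h : t ≤ 1) : E t ≤ 1 / 8000 ∨ E t = 1 - 25 * (1 - t) := by
  rcases le_total t (24 / 25 + 1 / 200000) with h1 | h1
  · left
    have h2 := E_lin (a := 24 / 25 + 1 / 200000) (b := 1) le_rfl (by norm_num)
    have h3 := E_mono h1
    rw [E_one] at h2
    linarith
  · right
    have h2 := E_lin h1 h
    rw [E_one] at h2
    linarith

theorem w_ge {t : ℝ} (h : |t| ≤ 1) : 1 ≤ w t := by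
  rw [abs_le] at h
  rcases le_total 0 t with h0 | h0
  · unfold w
    rw [E_neg_zero (by linarith)]
    rcases E_le_max h.2 with h1 | h1
    · linarith
    · rw [h1]; nlinarith
  · have h1 : E (-t) ≤ 1 := E_le_one (by linarith)
    have h2 : E t = 0 := E_zero (by linarith)
    unfold w
    rw [h2]; linarith [h.1]

theorem w_one : w 1 = 1 := by
  unfold w
  rw [E_neg_zero (by norm_num), E_one]; norm_num

theorem w_neg_one : w (-1) = 1 := by
  unfold w
  rw [neg_neg, E_zero (t := -1) (by norm_num), E_one]; norm_num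

theorem EE_le {t : ℝ} (h : |t| ≤ 1) : E t + E (-t) ≤ 1 := by
  rw [abs_le] at h
  rcases le_total 0 t with h0 | h0
  · rw [E_neg_zero (by linarith), add_zero]; exact E_le_one h.2
  · rw [E_zero (t := t) (by linarith), zero_add]; exact E_le_one (by linarith)

theorem EE_lt {t : ℝ} (h : |t| < 1) : E t + E (-t) < 1 := by
  rw [abs_lt] at h
  rcases le_total 0 t with h0 | h0
  · rw [E_neg_zero (by linarith), add_zero]; exact E_lt_one h.2
  · rw [E_zero (t := t) (by linarith), zero_add]; exact E_lt_one (by linarith)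

theorem w3_ge {ε t : ℝ} (hε : 0 ≤ ε) (h : |t| ≤ 1) : 1 ≤ w3 ε t := by
  unfold w3
  have := EE_le h
  nlinarith

theorem w3_le {ε : ℝ} (hε : 0 ≤ ε) (t : ℝ) : w3 ε t ≤ 1 + ε := by
  unfold w3
  have h1 := E_nonneg t
  have h2 := E_nonneg (-t)
  nlinarith

theorem w3_one (ε : ℝ) : w3 ε 1 = 1 := by
  unfold w3
  rw [E_neg_zero (by norm_num), E_one]; ring

theorem w3_neg_one (ε : ℝ) : w3 ε (-1) = 1 := by rw [w3_even, w3_one]

/-! bounds on the ring -/

theorem ring_pos {t : ℝ} (h : |t - 24 / 25| ≤ 1 / 200000) : 0 ≤ t ∧ t ≤ 1 := by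
  rw [abs_le] at h; constructor <;> linarith

theorem w_ring {t : ℝ} (h : |t - 24 / 25| ≤ 1 / 200000) : 6399 / 100 ≤ w t ∧ w t ≤ 64001 / 1000 := by
  have h2 := ring_pos h
  rw [abs_le] at h
  unfold w
  rw [E_neg_zero (by linarith)]
  have h1 := E_nonneg t
  have h3 : E t ≤ 1 / 8000 := by
    rcases E_le_max h2.2 with h3 | h3
    · exact h3
    · rw [h3]; linarith
  constructor <;> linarith

theorem wneg_ring {t : ℝ} (h : |t - 24 / 25| ≤ 1 / 200000) : 3999 / 1000 ≤ w (-t) ∧ w (-t) ≤ 4001 / 1000 := by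
  have h2 := ring_pos h
  rw [abs_le] at h
  unfold w
  rw [neg_neg, E_zero (t := -t) (by linarith)]
  have h1 := E_nonneg t
  have h3 : E t ≤ 1 / 8000 := by
    rcases E_le_max h2.2 with h3 | h3
    · exact h3
    · rw [h3]; linarith
  constructor <;> linarith

theorem logw_ring {t : ℝ} (h : |t - 24 / 25| ≤ 1 / 200000) :
    4158 / 1000 ≤ Real.log (w t) ∧ Real.log (w t) ≤ 416 / 100 := by
  obtain ⟨h1, h2⟩ := w_ring h
  have hw : 0 < w t := by linarith
  have e : Real.log (w t) = 6 * Real.log 2 + Real.log (w t / 64) := by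
    rw [Real.log_div hw.ne' (by norm_num), show (64:ℝ) = 2 ^ 6 by norm_num, Real.log_pow]; push_cast; ring
  have h3 := Real.log_two_gt_d9
  have h4 := Real.log_two_lt_d9
  have h5 := Real.log_le_sub_one_of_pos (show 0 < w t / 64 by positivity)
  have h6 := Real.one_sub_inv_le_log_of_pos (show 0 < w t / 64 by positivity)
  have h7 : (w t / 64)⁻¹ ≤ 10002 / 10000 := by
    rw [inv_le_comm₀ (by positivity) (by norm_num)]; linarith
  rw [e]
  constructor <;> linarith

theorem logwneg_ring {t : ℝ} (h : |t - 24 / 25| ≤ 1 / 200000) :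
    1385 / 1000 ≤ Real.log (w (-t)) ∧ Real.log (w (-t)) ≤ 1387 / 1000 := by
  obtain ⟨h1, h2⟩ := wneg_ring h
  have hw : 0 < w (-t) := by linarith
  have e : Real.log (w (-t)) = 2 * Real.log 2 + Real.log (w (-t) / 4) := by
    rw [Real.log_div hw.ne' (by norm_num), show (4:ℝ) = 2 ^ 2 by norm_num, Real.log_pow]; push_cast; ring
  have h3 := Real.log_two_gt_d9
  have h4 := Real.log_two_lt_d9
  have h5 := Real.log_le_sub_one_of_pos (show 0 < w (-t) / 4 by positivity)
  have h6 := Real.one_sub_inv_le_log_of_pos (show 0 < w (-t) / 4 by positivity)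
  have h7 : (w (-t) / 4)⁻¹ ≤ 10003 / 10000 := by
    rw [inv_le_comm₀ (by positivity) (by norm_num)]; linarith
  rw [e]
  constructor <;> linarith

/-! the algebra -/

/-- real quantities on the ring -/
structure Q where
  LP : ℝ
  LM : ℝ
  L3 : ℝ
  GP : ℝ
  GM : ℝ
  G3 : ℝ
  RP : ℝ
  RM : ℝ
  R3 : ℝ

namespace Q

variable (q : Q)

noncomputable def D : ℝ := (q.LP - q.L3) * (q.GM - q.G3) - (q.LM - q.L3) * (q.GP - q.G3)
noncomputable def Cn : ℝ := (q.RP - q.R3) * (q.GM - q.G3) - (q.RM - q.R3) * (q.GP - q.G3)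
noncomputable def Nn : ℝ := (q.LP - q.L3) * (q.RM - q.R3) - (q.LM - q.L3) * (q.RP - q.R3)
noncomputable def C : ℝ := q.Cn / q.D
noncomputable def N : ℝ := q.Nn / q.D
noncomputable def H : ℝ := q.R3 - q.C * q.L3 - q.N * q.G3

theorem eq3 : q.R3 = q.C * q.L3 + q.N * q.G3 + q.H := by unfold H; ring

theorem eqP (h : q.D ≠ 0) : q.RP = q.C * q.LP + q.N * q.GP + q.H := by
  have h1 : q.C * (q.LP - q.L3) + q.N * (q.GP - q.G3) = q.RP - q.R3 := by
    unfold C N
    rw [div_mul_eq_mul_div, div_mul_eq_mul_div, ← add_div, div_eq_iff h]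
    unfold Cn Nn D; ring
  unfold H; linarith

theorem eqM (h : q.D ≠ 0) : q.RM = q.C * q.LM + q.N * q.GM + q.H := by
  have h1 : q.C * (q.LM - q.L3) + q.N * (q.GM - q.G3) = q.RM - q.R3 := by
    unfold C N
    rw [div_mul_eq_mul_div, div_mul_eq_mul_div, ← add_div, div_eq_iff h]
    unfold Cn Nn D; ring
  unfold H; linarith

end Q

end Q279.TS
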