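import Pool.Agent.Q279.TS.R2

set_option autoImplicit false

open MeasureTheory Topology Filter Set
open scoped ContDiff

namespace Q279.TS

/-- the bounds on the ring -/
structure Bd (q : Q) (ε s : ℝ) : Prop where
  s0 : 0 ≤ s
  s1 : s ≤ 1
  e0 : 0 < ε
  e1 : ε ≤ 1 / 100
  LPl : 4158 / 1000 ≤ q.LP
  LPu : q.LP ≤ 416 / 100
  LMl : 1385 / 1000 ≤ q.LM
  LMu : q.LM ≤ 1387 / 1000
  L3l : 0 ≤ q.L3
  L3u : q.L3 ≤ ε
  GMl : 6246 / 100000 * (5 / 4 + 7 / 4 * s) ^ 2 ≤ q.GM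
  GPl : 0 ≤ q.GP
  GPu : q.GP ≤ 2443 / 10000000 * (5 / 4 - 257 / 4 * s) ^ 2
  G3l : 0 ≤ q.G3
  G3u : q.G3 ≤ ε ^ 2 * s ^ 2
  RPl : 10038 / 10000 ≤ q.RP
  RPu : q.RP ≤ 10041 / 10000
  RMl : 4373 / 10000 ≤ q.RM
  RMu : q.RM ≤ 4377 / 10000
  R3l : 100 / 101 * ε ≤ q.R3
  R3u : q.R3 ≤ ε

namespace Bd

variable {q : Q} {ε s : ℝ}

theorem G3u' (b : Bd q ε s) : q.G3 ≤ 1 / 10000 * s ^ 2 := by
  have h1 : ε ^ 2 ≤ 1 / 10000 := by nlinarith [b.e0, b.e1]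
  exact b.G3u.trans (mul_le_mul_of_nonneg_right h1 (sq_nonneg _))

theorem G3u'' (b : Bd q ε s) : q.G3 ≤ 1 / 100 * ε := by
  have h1 : s ^ 2 ≤ 1 := by nlinarith [b.s0, b.s1]
  have h2 : ε ^ 2 ≤ 1 / 100 * ε := by nlinarith [b.e0, b.e1]
  have h3 : ε ^ 2 * s ^ 2 ≤ ε ^ 2 * 1 := mul_le_mul_of_nonneg_left h1 (sq_nonneg _)
  linarith [b.G3u]

theorem gm (b : Bd q ε s) : 6246 / 100000 * (5 / 4 + 7 / 4 * s) ^ 2 - 1 / 10000 * s ^ 2 ≤ q.GM - q.G3 := by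
  linarith [b.G3u', b.GMl]

theorem gm0 (b : Bd q ε s) : 0 ≤ 6246 / 100000 * (5 / 4 + 7 / 4 * s) ^ 2 - 1 / 10000 * s ^ 2 := by
  nlinarith [b.s0]

/-- lower bound of a combination -/
theorem comb (b : Bd q ε s) {α β a b' : ℝ} (hα : a ≤ α) (ha : 0 ≤ a) (hβ0 : 0 ≤ β) (hβ : β ≤ b') :
    a * (6246 / 100000 * (5 / 4 + 7 / 4 * s) ^ 2 - 1 / 10000 * s ^ 2) -
      b' * (2443 / 10000000 * (5 / 4 - 257 / 4 * s) ^ 2) ≤ α * (q.GM - q.G3) - β * (q.GP - q.G3) := by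
  have h1 : a * (6246 / 100000 * (5 / 4 + 7 / 4 * s) ^ 2 - 1 / 10000 * s ^ 2) ≤ α * (q.GM - q.G3) :=
    mul_le_mul hα b.gm b.gm0 (ha.trans hα)
  have h2 : β * (q.GP - q.G3) ≤ β * q.GP := mul_le_mul_of_nonneg_left (by linarith [b.G3l]) hβ0
  have h3 : β * q.GP ≤ b' * (2443 / 10000000 * (5 / 4 - 257 / 4 * s) ^ 2) :=
    mul_le_mul hβ b.GPu b.GPl (hβ0.trans hβ)
  linarith

theorem D_lo (b : Bd q ε s) : 39 / 100 ≤ q.D := by
  have h := b.comb (α := q.LP - q.L3) (β := q.LM - q.L3) (a := 4148 / 1000) (b' := 1387 / 1000)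
    (by linarith [b.LPl, b.L3u, b.e1]) (by norm_num) (by linarith [b.LMl, b.L3u, b.e1])
    (by linarith [b.LMu, b.L3l])
  have h1 := mul_nonneg b.s0 (sub_nonneg.2 b.s1)
  unfold Q.D
  nlinarith [b.s0]

theorem D_pos (b : Bd q ε s) : 0 < q.D := by linarith [b.D_lo]

theorem Cn_lo (b : Bd q ε s) : 9 / 100 ≤ q.Cn := by
  have h := b.comb (α := q.RP - q.R3) (β := q.RM - q.R3) (a := 9938 / 10000) (b' := 4377 / 10000)
    (by linarith [b.RPl, b.R3u, b.e1]) (by norm_num) (by linarith [b.RMl, b.R3u, b.e1])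
    (by linarith [b.RMu, b.R3l, b.e0])
  have h1 := mul_nonneg b.s0 (sub_nonneg.2 b.s1)
  unfold Q.Cn
  nlinarith [b.s0]

theorem Cn_hi (b : Bd q ε s) : q.Cn ≤ q.D / 2 := by
  have h := b.comb (α := (q.LP - q.L3) / 2 - (q.RP - q.R3)) (β := (q.LM - q.L3) / 2 - (q.RM - q.R3))
    (a := 10698 / 10000) (b' := 2663 / 10000)
    (by linarith [b.LPl, b.L3u, b.e1, b.RPu, b.R3l, b.e0]) (by norm_num)
    (by linarith [b.LMl, b.L3u, b.e1, b.RMu, b.R3l, b.e0])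
    (by linarith [b.LMu, b.L3l, b.e1, b.RMl, b.R3u, b.e0])
  have h1 := mul_nonneg b.s0 (sub_nonneg.2 b.s1)
  unfold Q.Cn Q.D
  nlinarith [b.s0]

theorem Nn_lo (b : Bd q ε s) : 3 / 10 ≤ q.Nn := by
  have h1 : 4148 / 1000 * (4273 / 10000) ≤ (q.LP - q.L3) * (q.RM - q.R3) :=
    mul_le_mul (by linarith [b.LPl, b.L3u, b.e1]) (by linarith [b.RMl, b.R3u, b.e1]) (by norm_num)
      (by linarith [b.LPl, b.L3u, b.e1])
  have h2 : (q.LM - q.L3) * (q.RP - q.R3) ≤ 1387 / 1000 * (10041 / 10000) :=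
    mul_le_mul (by linarith [b.LMu, b.L3l]) (by linarith [b.RPu, b.R3l, b.e0])
      (by linarith [b.RPl, b.R3u, b.e1]) (by norm_num)
  unfold Q.Nn
  linarith

theorem Nn_hi (b : Bd q ε s) : q.Nn ≤ 2 := by
  have h1 : (q.LP - q.L3) * (q.RM - q.R3) ≤ 416 / 100 * (4377 / 10000) :=
    mul_le_mul (by linarith [b.LPu, b.L3l]) (by linarith [b.RMu, b.R3l, b.e0])
      (by linarith [b.RMl, b.R3u, b.e1]) (by norm_num)
  have h2 : 0 ≤ (q.LM - q.L3) * (q.RP - q.R3) :=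
    mul_nonneg (by linarith [b.LMl, b.L3u, b.e1]) (by linarith [b.RPl, b.R3u, b.e1])
  unfold Q.Nn
  linarith

theorem C_pos (b : Bd q ε s) : 0 < q.C := div_pos (by linarith [b.Cn_lo]) b.D_pos

theorem C_hi (b : Bd q ε s) : q.C ≤ 1 / 2 := by
  unfold Q.C
  rw [div_le_iff₀ b.D_pos]
  linarith [b.Cn_hi]

theorem N_pos (b : Bd q ε s) : 0 < q.N := div_pos (by linarith [b.Nn_lo]) b.D_pos

theorem N_hi (b : Bd q ε s) : q.N ≤ 6 := by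
  unfold Q.N
  rw [div_le_iff₀ b.D_pos]
  linarith [b.Nn_hi, b.D_lo]

theorem H_hi (b : Bd q ε s) : q.H ≤ ε := by
  have h1 := mul_nonneg b.C_pos.le b.L3l
  have h2 := mul_nonneg b.N_pos.le b.G3l
  unfold Q.H
  linarith [b.R3u]

theorem H_pos (b : Bd q ε s) : 0 < q.H := by
  have h1 : q.C * q.L3 ≤ 1 / 2 * ε := mul_le_mul b.C_hi b.L3u b.L3l (by norm_num)
  have h2 : q.N * q.G3 ≤ 6 * (1 / 100 * ε) := mul_le_mul b.N_hi b.G3u'' b.G3l (by norm_num)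
  unfold Q.H
  linarith [b.R3l, b.e0]

end Bd

/-- the nine quantities at the point `t` -/
noncomputable def qf (ε t : ℝ) : Q :=
  ⟨Real.log (w t), Real.log (w (-t)), Real.log (w3 ε t), ((5 / 4 - 257 / 4 * j t) / w t) ^ 2,
    ((5 / 4 + 7 / 4 * j t) / w (-t)) ^ 2, (ε * j t / w3 ε t) ^ 2, (257 / 4) / w t, (7 / 4) / w (-t),
    ε / w3 ε t⟩

theorem bd {ε t : ℝ} (e0 : 0 < ε) (e1 : ε ≤ 1 / 100) (h : |t - 24 / 25| ≤ 1 / 200000) :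
    Bd (qf ε t) ε (j t) := by
  obtain ⟨a1, a2⟩ := w_ring h
  obtain ⟨b1, b2⟩ := wneg_ring h
  obtain ⟨c1, c2⟩ := logw_ring h
  obtain ⟨d1, d2⟩ := logwneg_ring h
  obtain ⟨t0, t1⟩ := ring_pos h
  have ht : |t| ≤ 1 := by rw [abs_of_nonneg t0]; exact t1
  have f1 := w3_ge e0.le ht
  have f2 := w3_le e0.le t
  have hw : 0 < w t := by linarith
  have hm : 0 < w (-t) := by linarith
  have h3 : 0 < w3 ε t := by linarith
  have s0 := j_nonneg t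
  have s1 := j_le t
  have a3 : w t ^ 2 ≤ (64001 / 1000) ^ 2 := pow_le_pow_left₀ hw.le a2 2
  have a4 : (6399 / 100) ^ 2 ≤ w t ^ 2 := pow_le_pow_left₀ (by norm_num) a1 2
  have b3 : w (-t) ^ 2 ≤ (4001 / 1000) ^ 2 := pow_le_pow_left₀ hm.le b2 2
  have g1 : 1 ≤ w3 ε t ^ 2 := one_le_pow₀ f1
  refine ⟨s0, s1, e0, e1, c1, c2, d1, d2, Real.log_nonneg f1, ?_, ?_, sq_nonneg _, ?_, sq_nonneg _, ?_, ?_, ?_,
    ?_, ?_, ?_, ?_⟩
  · show Real.log (w3 ε t) ≤ ε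
    linarith [Real.log_le_sub_one_of_pos h3]
  · show 6246 / 100000 * (5 / 4 + 7 / 4 * j t) ^ 2 ≤ ((5 / 4 + 7 / 4 * j t) / w (-t)) ^ 2
    rw [div_pow, le_div_iff₀ (by positivity)]
    nlinarith [sq_nonneg (5 / 4 + 7 / 4 * j t)]
  · show ((5 / 4 - 257 / 4 * j t) / w t) ^ 2 ≤ 2443 / 10000000 * (5 / 4 - 257 / 4 * j t) ^ 2
    rw [div_pow, div_le_iff₀ (by positivity)]
    nlinarith [sq_nonneg (5 / 4 - 257 / 4 * j t)]
  · show (ε * j t / w3 ε t) ^ 2 ≤ ε ^ 2 * j t ^ 2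
    rw [div_pow, div_le_iff₀ (by positivity), mul_pow]
    nlinarith [mul_nonneg (sq_nonneg ε) (sq_nonneg (j t))]
  · show 10038 / 10000 ≤ (257 / 4) / w t
    rw [le_div_iff₀ hw]; linarith
  · show (257 / 4) / w t ≤ 10041 / 10000
    rw [div_le_iff₀ hw]; linarith
  · show 4373 / 10000 ≤ (7 / 4) / w (-t)
    rw [le_div_iff₀ hm]; linarith
  · show (7 / 4) / w (-t) ≤ 4377 / 10000
    rw [div_le_iff₀ hm]; linarith
  · show 100 / 101 * ε ≤ ε / w3 ε t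
    rw [le_div_iff₀ h3]
    have : w3 ε t ≤ 101 / 100 := by linarith
    have h5 : (100 / 101 * ε) * w3 ε t ≤ (100 / 101 * ε) * (101 / 100) :=
      mul_le_mul_of_nonneg_left this (by positivity)
    linarith
  · show ε / w3 ε t ≤ ε
    rw [div_le_iff₀ h3]
    have := mul_le_mul_of_nonneg_left f1 e0.le
    linarith

end Q279.TS
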