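import Pool.Agent.Q279.TS.R3

set_option autoImplicit false

open MeasureTheory Topology Filter Set
open scoped ContDiff

namespace Q279.TS

/-- coefficients on the right ring -/
noncomputable def Cr (ε t : ℝ) : ℝ := 25 * dj t * (qf ε t).C
noncomputable def Nr (ε t : ℝ) : ℝ := dj t / 25 * (qf ε t).N
noncomputable def Hr (ε t : ℝ) : ℝ := 25 * dj t * (qf ε t).H

theorem qf_smooth {ε t : ℝ} (e0 : 0 < ε) (e1 : ε ≤ 1 / 100) (h : |t - 24 / 25| ≤ 1 / 200000) :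
    ContDiffAt ℝ ∞ (fun s => (qf ε s).C) t ∧ ContDiffAt ℝ ∞ (fun s => (qf ε s).N) t ∧
      ContDiffAt ℝ ∞ (fun s => (qf ε s).H) t := by
  have b := bd e0 e1 h
  obtain ⟨a1, -⟩ := w_ring h
  obtain ⟨b1, -⟩ := wneg_ring h
  obtain ⟨t0, t1⟩ := ring_pos h
  have ht : |t| ≤ 1 := by rw [abs_of_nonneg t0]; exact t1
  have f1 := w3_ge e0.le ht
  have hw : w t ≠ 0 := by linarith
  have hm : w (-t) ≠ 0 := by linarith
  have h3 : w3 ε t ≠ 0 := by linarith
  have sw : ContDiffAt ℝ ∞ w t := w_smooth.contDiffAt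
  have sm : ContDiffAt ℝ ∞ (fun s => w (-s)) t := (w_smooth.comp contDiff_neg).contDiffAt
  have s3 : ContDiffAt ℝ ∞ (w3 ε) t := (w3_smooth ε).contDiffAt
  have sj : ContDiffAt ℝ ∞ j t := (j_smooth (k := ⊤)).contDiffAt
  have cLP : ContDiffAt ℝ ∞ (fun s => (qf ε s).LP) t := sw.log hw
  have cLM : ContDiffAt ℝ ∞ (fun s => (qf ε s).LM) t := sm.log hm
  have cL3 : ContDiffAt ℝ ∞ (fun s => (qf ε s).L3) t := s3.log h3
  have cGP : ContDiffAt ℝ ∞ (fun s => (qf ε s).GP) t :=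
    ((contDiffAt_const.sub (contDiffAt_const.mul sj)).div sw hw).pow 2
  have cGM : ContDiffAt ℝ ∞ (fun s => (qf ε s).GM) t :=
    ((contDiffAt_const.add (contDiffAt_const.mul sj)).div sm hm).pow 2
  have cG3 : ContDiffAt ℝ ∞ (fun s => (qf ε s).G3) t :=
    ((contDiffAt_const.mul sj).div s3 h3).pow 2
  have cRP : ContDiffAt ℝ ∞ (fun s => (qf ε s).RP) t := contDiffAt_const.div sw hw
  have cRM : ContDiffAt ℝ ∞ (fun s => (qf ε s).RM) t := contDiffAt_const.div sm hm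
  have cR3 : ContDiffAt ℝ ∞ (fun s => (qf ε s).R3) t := contDiffAt_const.div s3 h3
  have cD : ContDiffAt ℝ ∞ (fun s => (qf ε s).D) t :=
    ((cLP.sub cL3).mul (cGM.sub cG3)).sub ((cLM.sub cL3).mul (cGP.sub cG3))
  have cCn : ContDiffAt ℝ ∞ (fun s => (qf ε s).Cn) t :=
    ((cRP.sub cR3).mul (cGM.sub cG3)).sub ((cRM.sub cR3).mul (cGP.sub cG3))
  have cNn : ContDiffAt ℝ ∞ (fun s => (qf ε s).Nn) t :=
    ((cLP.sub cL3).mul (cRM.sub cR3)).sub ((cLM.sub cL3).mul (cRP.sub cR3))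
  have cC : ContDiffAt ℝ ∞ (fun s => (qf ε s).C) t := cCn.div cD b.D_pos.ne'
  have cN : ContDiffAt ℝ ∞ (fun s => (qf ε s).N) t := cNn.div cD b.D_pos.ne'
  exact ⟨cC, cN, (cR3.sub (cC.mul cL3)).sub (cN.mul cG3)⟩

theorem smooth_of (k : ℝ) {f : ℝ → ℝ}
    (hf : ∀ t, |t - 24 / 25| ≤ 1 / 200000 → ContDiffAt ℝ ∞ f t) :
    ContDiff ℝ ∞ (fun t => k * dj t * f t) := by
  rw [contDiff_iff_contDiffAt]
  intro t
  rcases lt_or_ge (1 / 200000) |t - 24 / 25| with h | h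
  · have : (fun t => k * dj t * f t) =ᶠ[𝓝 t] fun _ => 0 := by
      filter_upwards [dj_event h] with y hy
      rw [hy]; ring
    exact contDiffAt_const.congr_of_eventuallyEq this
  · exact (contDiffAt_const.mul dj_smooth.contDiffAt).mul (hf t h)

theorem Cr_smooth {ε : ℝ} (e0 : 0 < ε) (e1 : ε ≤ 1 / 100) : ContDiff ℝ ∞ (Cr ε) :=
  smooth_of 25 fun _ h => (qf_smooth e0 e1 h).1

theorem Nr_smooth {ε : ℝ} (e0 : 0 < ε) (e1 : ε ≤ 1 / 100) : ContDiff ℝ ∞ (Nr ε) := by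
  have h := smooth_of (1 / 25) (f := fun s => (qf ε s).N) fun _ h => (qf_smooth e0 e1 h).2.1
  have e : Nr ε = fun t => 1 / 25 * dj t * (qf ε t).N := by
    funext t
    unfold Nr; ring
  rw [e]
  exact h

theorem Hr_smooth {ε : ℝ} (e0 : 0 < ε) (e1 : ε ≤ 1 / 100) : ContDiff ℝ ∞ (Hr ε) :=
  smooth_of 25 fun _ h => (qf_smooth e0 e1 h).2.2

theorem r_zero {ε t : ℝ} (h : dj t = 0) : Cr ε t = 0 ∧ Nr ε t = 0 ∧ Hr ε t = 0 := by
  unfold Cr Nr Hr
  rw [h]
  refine ⟨?_, ?_, ?_⟩ <;> ring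

/-- either `dj t = 0` or `t` is in the ring -/
theorem dj_cases (t : ℝ) : dj t = 0 ∨ |t - 24 / 25| ≤ 1 / 200000 := by
  rcases lt_or_ge (1 / 200000) |t - 24 / 25| with h | h
  · left; exact dj_zero h
  · right; exact h

theorem Cr_nonneg {ε : ℝ} (e0 : 0 < ε) (e1 : ε ≤ 1 / 100) (t : ℝ) : 0 ≤ Cr ε t := by
  rcases dj_cases t with h | h
  · rw [(r_zero h).1]
  · exact mul_nonneg (mul_nonneg (by norm_num) (dj_nonneg t)) (bd e0 e1 h).C_pos.le

theorem Cr_le {ε : ℝ} (e0 : 0 < ε) (e1 : ε ≤ 1 / 100) (t : ℝ) : 2 * Cr ε t ≤ 25 * dj t := by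
  rcases dj_cases t with h | h
  · rw [(r_zero h).1, h]; norm_num
  · have := mul_le_mul_of_nonneg_left (bd e0 e1 h).C_hi (mul_nonneg (show (0:ℝ) ≤ 25 by norm_num) (dj_nonneg t))
    unfold Cr
    linarith

theorem Nr_nonneg {ε : ℝ} (e0 : 0 < ε) (e1 : ε ≤ 1 / 100) (t : ℝ) : 0 ≤ Nr ε t := by
  rcases dj_cases t with h | h
  · rw [(r_zero h).2.1]
  · exact mul_nonneg (div_nonneg (dj_nonneg t) (by norm_num)) (bd e0 e1 h).N_pos.le

theorem Nr_le {ε : ℝ} (e0 : 0 < ε) (e1 : ε ≤ 1 / 100) (t : ℝ) : Nr ε t ≤ dj t := by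
  have h0 := dj_nonneg t
  rcases dj_cases t with h | h
  · rw [(r_zero h).2.1]; exact h0
  · have := mul_le_mul_of_nonneg_left (bd e0 e1 h).N_hi (div_nonneg (dj_nonneg t) (show (0:ℝ) ≤ 25 by norm_num))
    unfold Nr
    linarith

theorem Hr_nonneg {ε : ℝ} (e0 : 0 < ε) (e1 : ε ≤ 1 / 100) (t : ℝ) : 0 ≤ Hr ε t := by
  rcases dj_cases t with h | h
  · rw [(r_zero h).2.2]
  · exact mul_nonneg (mul_nonneg (by norm_num) (dj_nonneg t)) (bd e0 e1 h).H_pos.le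

theorem Hr_le {ε : ℝ} (e0 : 0 < ε) (e1 : ε ≤ 1 / 100) (t : ℝ) : Hr ε t ≤ 25 * dj t * ε := by
  have h0 := dj_nonneg t
  rcases dj_cases t with h | h
  · rw [(r_zero h).2.2, h]; norm_num
  · exact mul_le_mul_of_nonneg_left (bd e0 e1 h).H_hi (mul_nonneg (by norm_num) h0)

/-- the three equations on the right half -/
theorem eqs {ε : ℝ} (e0 : 0 < ε) (e1 : ε ≤ 1 / 100) {t : ℝ} (t0 : 0 ≤ t) :
    25 * (257 / 4 * dj t) / w t = Cr ε t * Real.log (w t) + Nr ε t * (w' t / w t) ^ 2 + Hr ε t ∧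
    25 * (7 / 4 * dj t) / w (-t) = Cr ε t * Real.log (w (-t)) + Nr ε t * (w' (-t) / w (-t)) ^ 2 + Hr ε t ∧
    25 * (ε * dj t) / w3 ε t = Cr ε t * Real.log (w3 ε t) + Nr ε t * (w3' ε t / w3 ε t) ^ 2 + Hr ε t := by
  rcases dj_cases t with h | h
  · obtain ⟨h1, h2, h3⟩ := r_zero (ε := ε) h
    rw [h1, h2, h3, h]
    refine ⟨?_, ?_, ?_⟩ <;> ring
  · have b := bd e0 e1 h
    have hj : j (-t) = 0 := j_neg_zero (by linarith)
    have x1 : w' t = 25 * (5 / 4 - 257 / 4 * j t) := by unfold w'; rw [hj]; ring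
    have x2 : w' (-t) = 25 * (5 / 4 + 7 / 4 * j t) := by unfold w'; rw [hj, neg_neg]; ring
    have x3 : w3' ε t = -(25 * (ε * j t)) := by unfold w3'; rw [hj]; ring
    have k1 := (qf ε t).eqP b.D_pos.ne'
    have k2 := (qf ε t).eqM b.D_pos.ne'
    have k3 := (qf ε t).eq3
    have k1' : (257 / 4) / w t = (qf ε t).C * Real.log (w t) +
        (qf ε t).N * ((5 / 4 - 257 / 4 * j t) / w t) ^ 2 + (qf ε t).H := k1
    have k2' : (7 / 4) / w (-t) = (qf ε t).C * Real.log (w (-t)) +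
        (qf ε t).N * ((5 / 4 + 7 / 4 * j t) / w (-t)) ^ 2 + (qf ε t).H := k2
    have k3' : ε / w3 ε t = (qf ε t).C * Real.log (w3 ε t) +
        (qf ε t).N * (ε * j t / w3 ε t) ^ 2 + (qf ε t).H := k3
    rw [x1, x2, x3]
    unfold Cr Nr Hr
    refine ⟨?_, ?_, ?_⟩
    · rw [mul_div_assoc]
      linear_combination (25 * dj t) * k1'
    · rw [mul_div_assoc]
      linear_combination (25 * dj t) * k2'
    · rw [mul_div_assoc]
      linear_combination (25 * dj t) * k3'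

/-- coefficients in the variable `t = log |x|` -/
noncomputable def cT (ε t : ℝ) : ℝ := Cr ε t + Cr ε (-t)
noncomputable def mT (ε t : ℝ) : ℝ := 1 + Nr ε t + Nr ε (-t)
noncomputable def hT (ε t : ℝ) : ℝ := Hr ε t + Hr ε (-t)

theorem cT_even (ε t : ℝ) : cT ε (-t) = cT ε t := by unfold cT; rw [neg_neg]; ring
theorem mT_even (ε t : ℝ) : mT ε (-t) = mT ε t := by unfold mT; rw [neg_neg]; ring
theorem hT_even (ε t : ℝ) : hT ε (-t) = hT ε t := by unfold hT; rw [neg_neg]; ring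

theorem T_pos {ε t : ℝ} (h : 0 ≤ t) : cT ε t = Cr ε t ∧ mT ε t = 1 + Nr ε t ∧ hT ε t = Hr ε t := by
  obtain ⟨h1, h2, h3⟩ := r_zero (ε := ε) (dj_neg_zero (show -(1 / 2) ≤ t by linarith))
  unfold cT mT hT
  rw [h1, h2, h3]
  refine ⟨?_, ?_, ?_⟩ <;> ring

/-- first and second derivative of a logarithm -/
theorem log_deriv {f f' : ℝ → ℝ} {f'' t : ℝ} (hf : ∀ s, HasDerivAt f (f' s) s) (hf' : HasDerivAt f' f'' t)
    (h : 0 < f t) : deriv (fun s => Real.log (f s)) t = f' t / f t ∧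
      -deriv (deriv (fun s => Real.log (f s))) t - deriv (fun s => Real.log (f s)) t ^ 2 = -f'' / f t := by
  have hc : Continuous f := continuous_iff_continuousAt.2 fun s => (hf s).continuousAt
  have hev : ∀ᶠ s in 𝓝 t, 0 < f s := hc.continuousAt.eventually (lt_mem_nhds h)
  have h1 : deriv (fun s => Real.log (f s)) =ᶠ[𝓝 t] fun s => f' s / f s := by
    filter_upwards [hev] with s hs
    exact ((hf s).log hs.ne').deriv
  have h2 : deriv (fun s => Real.log (f s)) t = f' t / f t := h1.self_of_nhds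
  refine ⟨h2, ?_⟩
  rw [h1.deriv_eq, h2]
  have h3 : HasDerivAt (fun s => f' s / f s) ((f'' * f t - f' t * f' t) / f t ^ 2) t :=
    hf'.div (hf t) h.ne'
  rw [h3.deriv]
  have := h.ne'
  field_simp
  ring

/-- the logarithm of the first profile -/
noncomputable def U (t : ℝ) : ℝ := Real.log (w t)
noncomputable def U3 (ε t : ℝ) : ℝ := Real.log (w3 ε t)

theorem U_smooth {t : ℝ} (h : |t| ≤ 1) : ContDiffAt ℝ ∞ U t := by
  have := w_ge h
  exact w_smooth.contDiffAt.log (by linarith)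

theorem U3_smooth {ε t : ℝ} (e0 : 0 < ε) (h : |t| ≤ 1) : ContDiffAt ℝ ∞ (U3 ε) t := by
  have := w3_ge e0.le h
  exact (w3_smooth ε).contDiffAt.log (by linarith)

theorem odeU {ε : ℝ} (e0 : 0 < ε) (e1 : ε ≤ 1 / 100) {t : ℝ} (h : |t| ≤ 1) :
    -deriv (deriv U) t = cT ε t * U t + mT ε t * deriv U t ^ 2 + hT ε t := by
  have hw := w_ge h
  obtain ⟨a1, a2⟩ := log_deriv w_deriv (w'_deriv t) (show 0 < w t by linarith)
  have a1' : deriv U t = w' t / w t := a1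
  have a2' : -deriv (deriv U) t - deriv U t ^ 2 = 25 * (257 / 4 * dj t + 7 / 4 * dj (-t)) / w t := by
    have : -deriv (deriv U) t - deriv U t ^ 2 = _ := a2
    rw [this]; ring
  rw [abs_le] at h
  rcases le_total 0 t with h0 | h0
  · obtain ⟨k, -, -⟩ := eqs e0 e1 h0
    obtain ⟨c1, c2, c3⟩ := T_pos (ε := ε) h0
    rw [dj_neg_zero (by linarith), mul_zero, add_zero, k] at a2'
    rw [c1, c2, c3]
    rw [a1'] at a2' ⊢
    unfold U at a2' ⊢
    linarith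
  · obtain ⟨-, k, -⟩ := eqs e0 e1 (t := -t) (by linarith)
    obtain ⟨c1, c2, c3⟩ := T_pos (ε := ε) (t := -t) (by linarith)
    rw [cT_even] at c1
    rw [mT_even] at c2
    rw [hT_even] at c3
    rw [neg_neg] at k
    have hz : dj t = 0 := by
      have := dj_neg_zero (t := -t) (by linarith)
      rwa [neg_neg] at this
    rw [hz, mul_zero, zero_add, k] at a2'
    rw [c1, c2, c3]
    rw [a1'] at a2' ⊢
    unfold U at a2' ⊢
    linarith

theorem odeU3 {ε : ℝ} (e0 : 0 < ε) (e1 : ε ≤ 1 / 100) {t : ℝ} (h : |t| ≤ 1) :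
    -deriv (deriv (U3 ε)) t = cT ε t * U3 ε t + mT ε t * deriv (U3 ε) t ^ 2 + hT ε t := by
  have hw := w3_ge e0.le h
  obtain ⟨a1, a2⟩ := log_deriv (w3_deriv ε) (w3'_deriv ε t) (show 0 < w3 ε t by linarith)
  have a1' : deriv (U3 ε) t = w3' ε t / w3 ε t := a1
  have a2' : -deriv (deriv (U3 ε)) t - deriv (U3 ε) t ^ 2 = 25 * (ε * (dj t + dj (-t))) / w3 ε t := by
    have : -deriv (deriv (U3 ε)) t - deriv (U3 ε) t ^ 2 = _ := a2
    rw [this]; ring
  rw [abs_le] at h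
  rcases le_total 0 t with h0 | h0
  · obtain ⟨-, -, k⟩ := eqs e0 e1 h0
    obtain ⟨c1, c2, c3⟩ := T_pos (ε := ε) h0
    rw [dj_neg_zero (by linarith), add_zero, k] at a2'
    rw [c1, c2, c3]
    rw [a1'] at a2' ⊢
    unfold U3 at a2' ⊢
    linarith
  · obtain ⟨-, -, k⟩ := eqs e0 e1 (t := -t) (by linarith)
    obtain ⟨c1, c2, c3⟩ := T_pos (ε := ε) (t := -t) (by linarith)
    rw [cT_even] at c1
    rw [mT_even] at c2
    rw [hT_even] at c3
    have hz : dj t = 0 := by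
      have := dj_neg_zero (t := -t) (by linarith)
      rwa [neg_neg] at this
    have hs : w3' ε (-t) ^ 2 = w3' ε t ^ 2 := by
      unfold w3'; rw [neg_neg]; ring
    rw [w3_even, div_pow, hs, ← div_pow] at k
    rw [hz, zero_add, k] at a2'
    rw [c1, c2, c3]
    rw [a1'] at a2' ⊢
    unfold U3 at a2' ⊢
    linarith

/-- reflection -/
theorem refl_deriv (f : ℝ → ℝ) (t : ℝ) : deriv (fun s => f (-s)) t = -deriv f (-t) ∧
    deriv (deriv (fun s => f (-s))) t = deriv (deriv f) (-t) := by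
  have h1 : deriv (fun s => f (-s)) = fun s => -deriv f (-s) := by
    funext s; exact deriv_comp_neg f s
  refine ⟨by rw [h1], ?_⟩
  rw [h1]
  have h2 : deriv (fun s => -deriv f (-s)) t = -deriv (fun s => deriv f (-s)) t := deriv.fun_neg
  rw [h2, deriv_comp_neg (deriv f) t, neg_neg]

theorem odeUM {ε : ℝ} (e0 : 0 < ε) (e1 : ε ≤ 1 / 100) {t : ℝ} (h : |t| ≤ 1) :
    -deriv (deriv (fun s => U (-s))) t = cT ε t * U (-t) + mT ε t * deriv (fun s => U (-s)) t ^ 2 + hT ε t := by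
  obtain ⟨h1, h2⟩ := refl_deriv U t
  have h3 := odeU e0 e1 (t := -t) (by rwa [abs_neg])
  rw [cT_even, mT_even, hT_even] at h3
  rw [h1, h2, h3]
  ring

end Q279.TS
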