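import Pool.Agent.Q279.TS.R4

set_option autoImplicit false

open MeasureTheory Topology Filter Set
open scoped ContDiff NNReal

namespace Q279.TS

theorem cT_smooth {ε : ℝ} (e0 : 0 < ε) (e1 : ε ≤ 1 / 100) : ContDiff ℝ ∞ (cT ε) :=
  (Cr_smooth e0 e1).add ((Cr_smooth e0 e1).comp contDiff_neg)
theorem mT_smooth {ε : ℝ} (e0 : 0 < ε) (e1 : ε ≤ 1 / 100) : ContDiff ℝ ∞ (mT ε) :=
  (contDiff_const.add (Nr_smooth e0 e1)).add ((Nr_smooth e0 e1).comp contDiff_neg)
theorem hT_smooth {ε : ℝ} (e0 : 0 < ε) (e1 : ε ≤ 1 / 100) : ContDiff ℝ ∞ (hT ε) :=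
  (Hr_smooth e0 e1).add ((Hr_smooth e0 e1).comp contDiff_neg)

theorem cT_nonneg {ε : ℝ} (e0 : 0 < ε) (e1 : ε ≤ 1 / 100) (t : ℝ) : 0 ≤ cT ε t :=
  add_nonneg (Cr_nonneg e0 e1 t) (Cr_nonneg e0 e1 (-t))
theorem hT_nonneg {ε : ℝ} (e0 : 0 < ε) (e1 : ε ≤ 1 / 100) (t : ℝ) : 0 ≤ hT ε t :=
  add_nonneg (Hr_nonneg e0 e1 t) (Hr_nonneg e0 e1 (-t))
theorem mT_ge {ε : ℝ} (e0 : 0 < ε) (e1 : ε ≤ 1 / 100) (t : ℝ) : 1 ≤ mT ε t := by
  have h1 := Nr_nonneg e0 e1 t
  have h2 := Nr_nonneg e0 e1 (-t)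
  unfold mT; linarith

/-- the derivative of the step is bounded -/
theorem dj_bdd : ∃ J : ℝ, 1 ≤ J ∧ ∀ t, dj t ≤ J := by
  obtain ⟨L, hL⟩ := (isCompact_Icc (a := (0:ℝ)) (b := 1)).exists_bound_of_continuousOn
    (dj_smooth.continuous.continuousOn (s := Icc (0:ℝ) 1))
  refine ⟨max 1 L, le_max_left _ _, fun t => ?_⟩
  rcases dj_cases t with h | h
  · rw [h]; exact zero_le_one.trans (le_max_left _ _)
  · obtain ⟨t0, t1⟩ := ring_pos h
    have := hL t ⟨t0, t1⟩
    exact (le_abs_self _).trans (this.trans (le_max_right _ _))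

/-- the nonlinear first order equation -/
noncomputable def fR (ε t v : ℝ) : ℝ := -(mT ε t * v ^ 2) - hT ε t

/-- existence of a solution of the first order equation -/
theorem exists_v : ∃ ε : ℝ, 0 < ε ∧ ε ≤ 1 / 100 ∧ ∃ v : ℝ → ℝ, v 0 = 0 ∧
    ∀ t ∈ Icc (-(3 / 2) : ℝ) (3 / 2), HasDerivWithinAt v (fR ε t (v t)) (Icc (-(3 / 2)) (3 / 2)) t := by
  obtain ⟨J, J1, hJ⟩ := dj_bdd
  have hM : 0 < 1 + 2 * J := by linarith
  have hd : 0 < 450 * J * (1 + 2 * J) := by positivity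
  refine ⟨min (1 / 100) (1 / (450 * J * (1 + 2 * J))), lt_min (by norm_num) (by positivity), min_le_left _ _, ?_⟩
  set ε := min (1 / 100 : ℝ) (1 / (450 * J * (1 + 2 * J))) with hε
  have e0 : 0 < ε := lt_min (by norm_num) (by positivity)
  have e1 : ε ≤ 1 / 100 := min_le_left _ _
  have e2 : ε ≤ 1 / (450 * J * (1 + 2 * J)) := min_le_right _ _
  have e3 : ε * (450 * J * (1 + 2 * J)) ≤ 1 := by rwa [le_div_iff₀ hd] at e2
  set M := 1 + 2 * J with hMd
  have hm : ∀ t, mT ε t ≤ M := by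
    intro t
    have h1 := (Nr_le e0 e1 t).trans (hJ t)
    have h2 := (Nr_le e0 e1 (-t)).trans (hJ (-t))
    unfold mT; linarith
  have hm0 : ∀ t, 0 ≤ mT ε t := fun t => zero_le_one.trans (mT_ge e0 e1 t)
  have hh : ∀ t, hT ε t ≤ 50 * J * ε := by
    intro t
    have h1 := Hr_le e0 e1 t
    have h2 := Hr_le e0 e1 (-t)
    have h3 := mul_le_mul_of_nonneg_right (hJ t) e0.le
    have h4 := mul_le_mul_of_nonneg_right (hJ (-t)) e0.le
    unfold hT; linarith
  have hh0 := hT_nonneg e0 e1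
  set a : ℝ := 1 / (3 * M) with ha
  have ha0 : 0 < a := by positivity
  have haM : M * a = 1 / 3 := by rw [ha]; field_simp
  have hbound : ∀ t x : ℝ, |x| ≤ a → ‖fR ε t x‖ ≤ a / 3 + 50 * J * ε := by
    intro t x hx
    have h1 : x ^ 2 ≤ a ^ 2 := by rw [← sq_abs x]; exact pow_le_pow_left₀ (abs_nonneg _) hx 2
    have h2 : mT ε t * x ^ 2 ≤ M * a ^ 2 := mul_le_mul (hm t) h1 (sq_nonneg _) hM.le
    have h3 : M * a ^ 2 = a / 3 := by rw [sq, ← mul_assoc, haM]; ring
    have h4 : 0 ≤ mT ε t * x ^ 2 := mul_nonneg (hm0 t) (sq_nonneg _)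
    rw [Real.norm_eq_abs, abs_le]
    unfold fR
    constructor
    · linarith [hh t]
    · linarith [hh0 t, mul_pos (mul_pos (show (0:ℝ) < 50 by norm_num) (show 0 < J by linarith)) e0]
  have hJ0 : 0 < J := by linarith
  have hL0 : 0 ≤ a / 3 + 50 * J * ε := by positivity
  have hpl : IsPicardLindelof (fR ε) (tmin := -(3 / 2)) (tmax := 3 / 2) ⟨0, by norm_num, by norm_num⟩ (0:ℝ)
      ⟨a, ha0.le⟩ 0 ⟨a / 3 + 50 * J * ε, hL0⟩ ⟨2 * M * a, by positivity⟩ := by
    refine ⟨?_, ?_, ?_, ?_⟩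
    · intro t _
      apply LipschitzOnWith.of_dist_le_mul
      intro x hx y hy
      rw [mem_closedBall_zero_iff, Real.norm_eq_abs] at hx hy
      have hx' : |x| ≤ a := hx
      have hy' : |y| ≤ a := hy
      show dist (fR ε t x) (fR ε t y) ≤ (2 * M * a) * dist x y
      rw [Real.dist_eq, Real.dist_eq]
      have e : fR ε t x - fR ε t y = -(mT ε t * (x + y) * (x - y)) := by unfold fR; ring
      rw [e, abs_neg, abs_mul, abs_mul, abs_of_nonneg (hm0 t)]
      apply mul_le_mul_of_nonneg_right _ (abs_nonneg _)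
      have h1 : |x + y| ≤ 2 * a := (abs_add_le _ _).trans (by linarith)
      calc mT ε t * |x + y| ≤ M * (2 * a) := mul_le_mul (hm t) h1 (abs_nonneg _) hM.le
        _ = 2 * M * a := by ring
    · intro x _
      have c1 := (mT_smooth e0 e1).continuous
      have c2 := (hT_smooth e0 e1).continuous
      have : Continuous (fun t => fR ε t x) := by
        unfold fR
        exact (c1.mul continuous_const).neg.sub c2
      exact this.continuousOn
    · intro t _ x hx
      rw [mem_closedBall_zero_iff, Real.norm_eq_abs] at hx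
      exact hbound t x hx
    · show (a / 3 + 50 * J * ε) * max (3 / 2 - 0) (0 - -(3 / 2)) ≤ a - 0
      have h1 : max (3 / 2 - 0 : ℝ) (0 - -(3 / 2)) = 3 / 2 := by norm_num
      rw [h1]
      have h2 : 450 * J * M * ε ≤ 1 := by linarith
      have h3 : 150 * J * ε ≤ a := by
        rw [ha, le_div_iff₀ (by positivity)]
        linarith
      linarith
  obtain ⟨v, hv0, hv⟩ := hpl.exists_eq_forall_mem_Icc_hasDerivWithinAt₀
  exact ⟨v, hv0, hv⟩

/-- the properties of the solution of `(P_0)` -/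
theorem exists_U0 : ∃ ε : ℝ, 0 < ε ∧ ε ≤ 1 / 100 ∧ ∃ F : ℝ → ℝ,
    (∀ t, |t| ≤ 1 → ContDiffAt ℝ ∞ F t) ∧ F 1 = 0 ∧ F (-1) = 0 ∧ (∀ t, |t| ≤ 1 → 0 ≤ F t) ∧
    (∀ t, |t| ≤ 1 → -deriv (deriv F) t = mT ε t * deriv F t ^ 2 + hT ε t) ∧
    ∀ t, |t - 24 / 25| ≤ 1 / 200000 → 0 < dj t → 0 < F t := by
  obtain ⟨ε, e0, e1, v, v0, hv⟩ := exists_v
  have hvA : ∀ t ∈ Ioo (-(3 / 2) : ℝ) (3 / 2), HasDerivAt v (fR ε t (v t)) t := fun t ht =>
    (hv t (Ioo_subset_Icc_self ht)).hasDerivAt (Icc_mem_nhds ht.1 ht.2)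
  have hvc : ContinuousOn v (Icc (-(3 / 2)) (3 / 2)) := HasDerivWithinAt.continuousOn hv
  have hm0 : ∀ t, 0 ≤ mT ε t := fun t => zero_le_one.trans (mT_ge e0 e1 t)
  -- smoothness
  have hfs : ContDiff ℝ ∞ (Function.uncurry (fR ε)) := by
    have h1 : ContDiff ℝ ∞ (fun p : ℝ × ℝ => -(mT ε p.1 * p.2 ^ 2) - hT ε p.1) :=
      (((mT_smooth e0 e1).comp contDiff_fst).mul (contDiff_snd.pow 2)).neg.sub
        ((hT_smooth e0 e1).comp contDiff_fst)
    exact h1
  have hvs : ContDiffOn ℝ ∞ v (Icc (-(3 / 2)) (3 / 2)) :=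
    ODE.contDiffOn_enat_Icc_of_hasDerivWithinAt (n := ⊤) (u := univ) hfs.contDiffOn hv (mapsTo_univ _ _)
  -- oddness
  obtain ⟨B, hB⟩ := (isCompact_Icc (a := (-(3 / 2):ℝ)) (b := 3 / 2)).exists_bound_of_continuousOn hvc
  obtain ⟨B', hB'⟩ := (isCompact_Icc (a := (-(3 / 2):ℝ)) (b := 3 / 2)).exists_bound_of_continuousOn
    ((mT_smooth e0 e1).continuous.continuousOn (s := Icc (-(3 / 2)) (3 / 2)))
  have hB0 : 0 ≤ B := (norm_nonneg _).trans (hB 0 (by norm_num))
  have hB'0 : 0 ≤ B' := (norm_nonneg _).trans (hB' 0 (by norm_num))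
  have hneg : ∀ t ∈ Ioo (-(3 / 2) : ℝ) (3 / 2), -t ∈ Ioo (-(3 / 2) : ℝ) (3 / 2) := fun t ht =>
    ⟨by linarith [ht.2], by linarith [ht.1]⟩
  have hodd : EqOn v (fun t => -v (-t)) (Ioo (-(3 / 2)) (3 / 2)) := by
    apply ODE_solution_unique_of_mem_Ioo (v := fR ε) (s := fun _ => Metric.closedBall (0:ℝ) B)
      (K := ⟨B' * (2 * B), by positivity⟩) (t₀ := 0)
    · intro t ht
      apply LipschitzOnWith.of_dist_le_mul
      intro x hx y hy
      rw [mem_closedBall_zero_iff, Real.norm_eq_abs] at hx hy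
      show dist (fR ε t x) (fR ε t y) ≤ (B' * (2 * B)) * dist x y
      rw [Real.dist_eq, Real.dist_eq]
      have e : fR ε t x - fR ε t y = -(mT ε t * (x + y) * (x - y)) := by unfold fR; ring
      rw [e, abs_neg, abs_mul, abs_mul]
      apply mul_le_mul_of_nonneg_right _ (abs_nonneg _)
      have h1 : |x + y| ≤ 2 * B := (abs_add_le _ _).trans (by linarith)
      exact mul_le_mul (hB' t (Ioo_subset_Icc_self ht)) h1 (abs_nonneg _) hB'0
    · norm_num
    · intro t ht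
      exact ⟨hvA t ht, by rw [mem_closedBall_zero_iff]; exact hB t (Ioo_subset_Icc_self ht)⟩
    · intro t ht
      refine ⟨?_, ?_⟩
      · have h1 := ((hvA (-t) (hneg t ht)).comp t (hasDerivAt_neg t)).neg
        refine h1.congr_deriv ?_
        unfold fR
        rw [mT_even, hT_even]; ring
      · rw [mem_closedBall_zero_iff, norm_neg]
        exact hB (-t) (Ioo_subset_Icc_self (hneg t ht))
    · simp [v0]
  -- the primitive
  set F : ℝ → ℝ := fun t => ∫ s in (1:ℝ)..t, v s with hF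
  have hint : ∀ a b : ℝ, a ∈ Icc (-(3 / 2) : ℝ) (3 / 2) → b ∈ Icc (-(3 / 2) : ℝ) (3 / 2) →
      IntervalIntegrable v volume a b := by
    intro a b ha hb
    exact (hvc.mono (uIcc_subset_Icc ha hb)).intervalIntegrable
  have hFd : ∀ t ∈ Ioo (-(3 / 2) : ℝ) (3 / 2), HasDerivAt F (v t) t := by
    intro t ht
    have hca : ContinuousAt v t := (hvA t ht).continuousAt
    apply intervalIntegral.integral_hasDerivAt_right (hint 1 t (by norm_num) (Ioo_subset_Icc_self ht)) _ hca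
    exact ContinuousOn.stronglyMeasurableAtFilter isOpen_Ioo (hvc.mono Ioo_subset_Icc_self) t ht
  have hsub : ∀ {t : ℝ}, |t| ≤ 1 → t ∈ Ioo (-(3 / 2) : ℝ) (3 / 2) := by
    intro t ht
    rw [abs_le] at ht
    exact ⟨by linarith [ht.1], by linarith [ht.2]⟩
  have hdF : ∀ t ∈ Ioo (-(3 / 2) : ℝ) (3 / 2), deriv F =ᶠ[𝓝 t] v := by
    intro t ht
    filter_upwards [isOpen_Ioo.mem_nhds ht] with y hy
    exact (hFd y hy).deriv
  have hFs : ContDiffOn ℝ ∞ F (Ioo (-(3 / 2)) (3 / 2)) := by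
    rw [contDiffOn_infty_iff_deriv_of_isOpen isOpen_Ioo]
    refine ⟨fun t ht => (hFd t ht).differentiableAt.differentiableWithinAt, ?_⟩
    refine (hvs.mono Ioo_subset_Icc_self).congr fun t ht => (hFd t ht).deriv
  have F1 : F 1 = 0 := intervalIntegral.integral_same
  have hFev : ∀ t ∈ Ioo (-(3 / 2) : ℝ) (3 / 2), F (-t) = F t := by
    intro t ht
    have h1 : F (-t) - F t = ∫ s in t..(-t), v s := by
      rw [hF]
      exact intervalIntegral.integral_interval_sub_left (hint _ _ (by norm_num) (Ioo_subset_Icc_self (hneg t ht)))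
        (hint _ _ (by norm_num) (Ioo_subset_Icc_self ht))
    have h2 : ∫ s in t..(-t), v s = ∫ s in t..(-t), -v (-s) := by
      apply intervalIntegral.integral_congr
      intro s hs
      apply hodd
      have h3 : uIcc t (-t) ⊆ Ioo (-(3 / 2) : ℝ) (3 / 2) := by
        intro y hy
        rw [mem_uIcc] at hy
        rcases hy with hy | hy
        · exact ⟨by linarith [ht.1, hy.1], by linarith [ht.1, hy.2]⟩
        · exact ⟨by linarith [ht.2, hy.1], by linarith [ht.2, hy.2]⟩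
      exact h3 hs
    rw [intervalIntegral.integral_neg, intervalIntegral.integral_comp_neg, neg_neg] at h2
    linarith
  have vanti : AntitoneOn v (Icc 0 1) := by
    apply antitoneOn_of_deriv_nonpos (convex_Icc 0 1) (hvc.mono (Icc_subset_Icc (by norm_num) (by norm_num)))
    · intro t ht
      rw [interior_Icc] at ht
      exact (hvA t ⟨by linarith [ht.1], by linarith [ht.2]⟩).differentiableAt.differentiableWithinAt
    · intro t ht
      rw [interior_Icc] at ht
      rw [(hvA t ⟨by linarith [ht.1], by linarith [ht.2]⟩).deriv]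
      have h1 := mul_nonneg (hm0 t) (sq_nonneg (v t))
      have h2 := hT_nonneg e0 e1 t
      unfold fR; linarith
  have vneg : ∀ t ∈ Icc (0:ℝ) 1, v t ≤ 0 := by
    intro t ht
    have := vanti (by norm_num) ht ht.1
    rwa [v0] at this
  have Fanti : AntitoneOn F (Icc 0 1) := by
    apply antitoneOn_of_deriv_nonpos (convex_Icc 0 1)
    · intro t ht
      exact (hFd t ⟨by linarith [ht.1], by linarith [ht.2]⟩).continuousAt.continuousWithinAt
    · intro t ht
      rw [interior_Icc] at ht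
      exact (hFd t ⟨by linarith [ht.1], by linarith [ht.2]⟩).differentiableAt.differentiableWithinAt
    · intro t ht
      rw [interior_Icc] at ht
      rw [(hFd t ⟨by linarith [ht.1], by linarith [ht.2]⟩).deriv]
      exact vneg t ⟨ht.1.le, ht.2.le⟩
  have Fnn : ∀ t ∈ Icc (0:ℝ) 1, 0 ≤ F t := by
    intro t ht
    have := Fanti ht (by norm_num) ht.2
    rwa [F1] at this
  refine ⟨ε, e0, e1, F, ?_, F1, ?_, ?_, ?_, ?_⟩
  · intro t ht
    exact hFs.contDiffAt (isOpen_Ioo.mem_nhds (hsub ht))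
  · rw [hFev 1 (by norm_num), F1]
  · intro t ht
    rcases le_total 0 t with h0 | h0
    · rw [abs_of_nonneg h0] at ht; exact Fnn t ⟨h0, ht⟩
    · rw [abs_of_nonpos h0] at ht
      rw [← hFev t (hsub (by rw [abs_of_nonpos h0]; exact ht))]
      exact Fnn (-t) ⟨by linarith, ht⟩
  · intro t ht
    rw [(hdF t (hsub ht)).deriv_eq, (hvA t (hsub ht)).deriv, (hFd t (hsub ht)).deriv]
    unfold fR; ring
  · intro t ht hd
    have htr := ring_pos ht
    have ht1 : t < 1 := by rw [abs_le] at ht; linarith [ht.2]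
    have ht0 : 0 < t := by rw [abs_le] at ht; linarith [ht.1]
    by_contra hcon
    push Not at hcon
    have hFt : F t = 0 := le_antisymm hcon (Fnn t htr)
    set s := (t + 1) / 2 with hs
    have hs1 : s < 1 := by rw [hs]; linarith
    have hts : t < s := by rw [hs]; linarith
    have hFs0 : F s = 0 := by
      apply le_antisymm _ (Fnn s ⟨by linarith, hs1.le⟩)
      rw [← hFt]
      exact Fanti htr ⟨by linarith, hs1.le⟩ hts.le
    have hmin : IsLocalMin F s := by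
      filter_upwards [Ioo_mem_nhds (show (0:ℝ) < s by linarith) hs1] with y hy
      rw [hFs0]
      exact Fnn y ⟨hy.1.le, hy.2.le⟩
    have hvs0 : v s = 0 := hmin.hasDerivAt_eq_zero (hFd s ⟨by linarith, by linarith⟩)
    have hv0' : v =ᶠ[𝓝 t] fun _ => 0 := by
      filter_upwards [Ioo_mem_nhds ht0 hts] with y hy
      apply le_antisymm (vneg y ⟨hy.1.le, by linarith [hy.2]⟩)
      rw [← hvs0]
      exact vanti ⟨hy.1.le, by linarith [hy.2]⟩ ⟨by linarith, hs1.le⟩ hy.2.le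
    have hvt : v t = 0 := hv0'.self_of_nhds
    have hd2 : fR ε t (v t) = 0 := by
      rw [← (hvA t ⟨by linarith, by linarith⟩).deriv, hv0'.deriv_eq]; simp
    have hH : 0 < Hr ε t := mul_pos (mul_pos (by norm_num) hd) (bd e0 e1 ht).H_pos
    unfold fR at hd2
    rw [hvt, (T_pos (ε := ε) htr.1).2.2] at hd2
    linarith

end Q279.TS
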