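import Pool.Agent.Q279.TS.R5

set_option autoImplicit false

open MeasureTheory InnerProductSpace Laplacian Topology Filter Set
open scoped ContDiff

namespace Q279.TS

open Q61 Q61.Sob Q61.QGrad Q61.AC

/-- the profile is smooth on `[-1, 1]` -/
def Sm (F : ℝ → ℝ) : Prop := ∀ t, |t| ≤ 1 → ContDiffAt ℝ ∞ F t

theorem lap_F {F : ℝ → ℝ} (hF : Sm F) {x : En 2} (hx : x ∈ closure Ω) :
    (Δ (fun y => F (T y))) x = deriv (deriv F) (T x) * (‖x‖ ^ 2)⁻¹ := by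
  have h0 := ne_of_closure hx
  rw [lapN_comp_real ((hF _ (T_mem_cl hx)).of_le two_le) (T_smooth h0), ← norm_gradient_sq, grad_T_sq h0, lap_T h0]
  ring

theorem F_smooth {F : ℝ → ℝ} (hF : Sm F) {x : En 2} (hx : x ∈ closure Ω) :
    ContDiffAt ℝ ∞ (fun y => F (T y)) x := (hF _ (T_mem_cl hx)).comp x (T_smooth (ne_of_closure hx))

theorem grad_F {F : ℝ → ℝ} (hF : Sm F) {x : En 2} (hx : x ∈ closure Ω) :
    ‖gradient (fun y => F (T y)) x‖ ^ 2 = deriv F (T x) ^ 2 * (‖x‖ ^ 2)⁻¹ := by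
  have h0 := ne_of_closure hx
  rw [gradient_comp ((hF _ (T_mem_cl hx)).differentiableAt (by norm_num))
    ((T_smooth h0 (k := 1)).differentiableAt (by norm_num)), norm_smul, mul_pow, grad_T_sq h0,
    Real.norm_eq_abs, sq_abs]

theorem lin_F {F : ℝ → ℝ} (hF : Sm F) (h1 : F 1 = 0) (h2 : F (-1) = 0) :
    ∃ L : ℝ, 0 ≤ L ∧ ∀ t, |t| ≤ 1 → |F t| ≤ L * (1 - t ^ 2) := by
  have hd : ContinuousOn (deriv F) (Icc (-1) 1) := by
    intro t ht
    have h3 : ContDiffAt ℝ 1 F t := (hF t (abs_le.2 ht)).of_le (by exact_mod_cast le_top)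
    have h4 : ContDiffAt ℝ 0 (fderiv ℝ F) t := h3.fderiv_right (m := 0) (by norm_num)
    have h5 : ContinuousAt (fun s => fderiv ℝ F s 1) t := h4.continuousAt.clm_apply continuousAt_const
    exact h5.continuousWithinAt
  obtain ⟨L, hL⟩ := (isCompact_Icc (a := (-1:ℝ)) (b := 1)).exists_bound_of_continuousOn hd
  have hL0 : 0 ≤ L := (norm_nonneg _).trans (hL 0 (by norm_num))
  refine ⟨L, hL0, fun t ht => ?_⟩
  rw [abs_le] at ht
  have hconv : Convex ℝ (Icc (-1:ℝ) 1) := convex_Icc _ _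
  have key : ∀ a b : ℝ, a ∈ Icc (-1:ℝ) 1 → b ∈ Icc (-1:ℝ) 1 → ‖F b - F a‖ ≤ L * ‖b - a‖ := fun a b ha hb =>
    hconv.norm_image_sub_le_of_norm_deriv_le
      (fun x hx => (hF x (abs_le.2 hx)).differentiableAt (by norm_num)) hL ha hb
  rcases le_total 0 t with h0 | h0
  · have := key 1 t (by norm_num) ⟨ht.1, ht.2⟩
    rw [h1, sub_zero, Real.norm_eq_abs, Real.norm_eq_abs, abs_sub_comm, abs_of_nonneg (by linarith : 0 ≤ 1 - t)] at this
    refine this.trans (mul_le_mul_of_nonneg_left (by nlinarith) hL0)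
  · have := key (-1) t (by norm_num) ⟨ht.1, ht.2⟩
    rw [h2, sub_zero, Real.norm_eq_abs, Real.norm_eq_abs, abs_of_nonneg (by linarith : 0 ≤ t - -1)] at this
    refine this.trans (mul_le_mul_of_nonneg_left (by nlinarith) hL0)

theorem H10_F {F : ℝ → ℝ} (hF : Sm F) (h1 : F 1 = 0) (h2 : F (-1) = 0) :
    IsH10 Ω (fun y => F (T y)) (gradient (fun y => F (T y))) := by
  obtain ⟨L, hL0, hL⟩ := lin_F hF h1 h2
  apply isH10_of_vanish Ω_open Ω_bdd ρ_smooth mem_Ω_iff (fun x hx => F_smooth hF hx)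
    (C := L * (Real.exp 4 / 4))
  intro x hx
  refine (hL _ (T_mem hx).le).trans ?_
  rw [mul_assoc]
  exact mul_le_mul_of_nonneg_left (T_ρ hx) hL0

/-! the data -/

noncomputable def c (ε : ℝ) (x : En 2) : ℝ := cT ε (T x) * (‖x‖ ^ 2)⁻¹
noncomputable def m (ε : ℝ) (x : En 2) : ℝ := mT ε (T x)
noncomputable def h (ε : ℝ) (x : En 2) : ℝ := hT ε (T x) * (‖x‖ ^ 2)⁻¹

theorem inv_smooth {x : En 2} (hx : x ∈ closure Ω) : ContDiffAt ℝ ∞ (fun y : En 2 => (‖y‖ ^ 2)⁻¹) x := by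
  have h0 := ne_of_closure hx
  have h2 : ‖x‖ ^ 2 ≠ 0 := by have := norm_pos_iff.2 h0; positivity
  have h1 : ContDiffAt ℝ ∞ (fun x : En 2 => ‖x‖ ^ 2) x := (contDiff_id.norm_sq ℝ).contDiffAt
  exact h1.inv h2

variable {ε : ℝ}

theorem c_smooth (e0 : 0 < ε) (e1 : ε ≤ 1 / 100) {x : En 2} (hx : x ∈ closure Ω) : ContDiffAt ℝ ∞ (c ε) x :=
  (F_smooth (fun _ _ => (cT_smooth e0 e1).contDiffAt) hx).mul (inv_smooth hx)
theorem m_smooth (e0 : 0 < ε) (e1 : ε ≤ 1 / 100) {x : En 2} (hx : x ∈ closure Ω) : ContDiffAt ℝ ∞ (m ε) x :=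
  F_smooth (fun _ _ => (mT_smooth e0 e1).contDiffAt) hx
theorem h_smooth (e0 : 0 < ε) (e1 : ε ≤ 1 / 100) {x : En 2} (hx : x ∈ closure Ω) : ContDiffAt ℝ ∞ (h ε) x :=
  (F_smooth (fun _ _ => (hT_smooth e0 e1).contDiffAt) hx).mul (inv_smooth hx)

theorem c_nonneg (e0 : 0 < ε) (e1 : ε ≤ 1 / 100) (x : En 2) : 0 ≤ c ε x :=
  mul_nonneg (cT_nonneg e0 e1 _) (by positivity)
theorem h_nonneg (e0 : 0 < ε) (e1 : ε ≤ 1 / 100) (x : En 2) : 0 ≤ h ε x :=
  mul_nonneg (hT_nonneg e0 e1 _) (by positivity)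

/-- from the equation in one variable to a weak solution -/
theorem sol_of (e0 : 0 < ε) (e1 : ε ≤ 1 / 100) {F : ℝ → ℝ} {lam : ℝ} (hF : Sm F) (h1 : F 1 = 0) (h2 : F (-1) = 0)
    (hode : ∀ t, |t| ≤ 1 → -deriv (deriv F) t = lam * (cT ε t * F t) + mT ε t * deriv F t ^ 2 + hT ε t) :
    IsSolution Ω lam (c ε) (m ε) (h ε) (fun y => F (T y)) (gradient (fun y => F (T y))) := by
  apply isSolution_of_pointwise Ω_open Ω_bdd (fun x hx => F_smooth hF hx) (H10_F hF h1 h2)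
    (fun x hx => (c_smooth e0 e1 hx).continuousAt) (fun x hx => (m_smooth e0 e1 hx).continuousAt)
    (fun x hx => (h_smooth e0 e1 hx).continuousAt)
  intro x hx
  have hc := subset_closure hx
  rw [lap_F hF hc, grad_F hF hc]
  have := hode (T x) (T_mem_cl hc)
  show _ = lam * (cT ε (T x) * (‖x‖ ^ 2)⁻¹ * F (T x)) + mT ε (T x) * (deriv F (T x) ^ 2 * (‖x‖ ^ 2)⁻¹) +
    hT ε (T x) * (‖x‖ ^ 2)⁻¹
  linear_combination (‖x‖ ^ 2)⁻¹ * this

/-- a point of the annulus with a given value of `T` -/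
theorem exists_T {t : ℝ} (h0 : -1 < t) (h1 : t < 1) : ∃ x ∈ Ω, T x = t := by
  have hnorm : ‖(EuclideanSpace.single 0 (Real.exp t) : En 2)‖ = Real.exp t := by
    rw [PiLp.norm_single, Real.norm_of_nonneg (Real.exp_pos t).le]
  have hxΩ : (EuclideanSpace.single 0 (Real.exp t) : En 2) ∈ Ω := by
    show Real.exp (-1) < ‖(EuclideanSpace.single 0 (Real.exp t) : En 2)‖ ∧
      ‖(EuclideanSpace.single 0 (Real.exp t) : En 2)‖ < Real.exp 1
    rw [hnorm]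
    exact ⟨Real.exp_lt_exp.2 h0, Real.exp_lt_exp.2 h1⟩
  exact ⟨_, hxΩ, by rw [T_eq (ne_of_closure (subset_closure hxΩ)), hnorm, Real.log_exp]⟩

/-- continuous functions which differ at a point are not equal almost everywhere -/
theorem not_ae {f g : En 2 → ℝ} (hf : ∀ x ∈ Ω, ContinuousAt f x) (hg : ∀ x ∈ Ω, ContinuousAt g x)
    {x : En 2} (hx : x ∈ Ω) (hne : f x ≠ g x) : ¬ ∀ᵐ x ∂(volume.restrict Ω), f x = g x := by
  intro hae
  have := Measure.eqOn_open_of_ae_eq (μ := volume) (f := f) (g := g) hae Ω_open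
    (fun y hy => (hf y hy).continuousWithinAt) (fun y hy => (hg y hy).continuousWithinAt)
  exact hne (this hx)

/-- the supersolution for the eigenvalue bound -/
noncomputable def FΦ (t : ℝ) : ℝ := 1 - E t - E (-t)

theorem FΦ_smooth : Sm FΦ := fun t _ => by
  unfold FΦ
  exact ((contDiff_const.sub E_smooth).sub (E_smooth.comp contDiff_neg)).contDiffAt

theorem FΦ_deriv2 (t : ℝ) : deriv (deriv FΦ) t = -(25 * (dj t + dj (-t))) := by
  have h1 : deriv FΦ = fun t => -(25 * (j t - j (-t))) := by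
    funext t
    have h := ((E_deriv t).const_sub 1).sub (Eneg_deriv t)
    have h' : HasDerivAt FΦ (-(25 * j t) - -(25 * j (-t))) t := h
    rw [h'.deriv]; ring
  rw [h1]
  have h2 := (((j_deriv t).sub (jneg_deriv t)).const_mul 25).neg
  have h2' : HasDerivAt (fun t => -(25 * (j t - j (-t)))) (-(25 * (dj t - -dj (-t)))) t := h2
  rw [h2'.deriv]; ring

theorem FΦ_pos {t : ℝ} (ht : |t| < 1) : 0 < FΦ t := by unfold FΦ; linarith [EE_lt ht]

theorem FΦ_le (t : ℝ) : FΦ t ≤ 1 := by unfold FΦ; linarith [E_nonneg t, E_nonneg (-t)]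

theorem super (e0 : 0 < ε) (e1 : ε ≤ 1 / 100) {t : ℝ} (ht : |t| < 1) :
    2 * cT ε t * FΦ t ≤ -deriv (deriv FΦ) t := by
  rw [FΦ_deriv2, neg_neg]
  have h1 := Cr_le e0 e1 t
  have h2 := Cr_le e0 e1 (-t)
  have h3 := cT_nonneg e0 e1 t
  have h4 := FΦ_pos ht
  have h5 := FΦ_le t
  have h6 : 2 * cT ε t * FΦ t ≤ 2 * cT ε t * 1 := mul_le_mul_of_nonneg_left h5 (by linarith)
  have h7 : 2 * cT ε t ≤ 25 * (dj t + dj (-t)) := by unfold cT; linarith
  linarith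

theorem ray (e0 : 0 < ε) (e1 : ε ≤ 1 / 100) {w : En 2 → ℝ} {W : En 2 → En 2} (hw : IsH10 Ω w W) :
    2 * ∫ x in Ω, c ε x * w x ^ 2 ≤ ∫ x in Ω, ‖W x‖ ^ 2 := by
  apply rayleigh_bound Ω_open Ω_bdd (fun x hx => (c_smooth e0 e1 hx).continuousAt) (Φ := fun y => FΦ (T y))
    (fun x hx => F_smooth FΦ_smooth (subset_closure hx)) (fun x hx => FΦ_pos (T_mem hx)) _ hw
  intro x hx
  rw [lap_F FΦ_smooth (subset_closure hx)]
  have h1 := super e0 e1 (T_mem hx)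
  have h2 : 0 ≤ (‖x‖ ^ 2)⁻¹ := by positivity
  show 2 * (cT ε (T x) * (‖x‖ ^ 2)⁻¹) * FΦ (T x) ≤ _
  have h3 := mul_le_mul_of_nonneg_right h1 h2
  linarith

theorem gamma_ge (e0 : 0 < ε) (e1 : ε ≤ 1 / 100) {u : En 2 → ℝ} {G : En 2 → En 2} (hu : IsH10 Ω u G)
    (huc : ∀ x ∈ closure Ω, ContinuousAt u x) (hne : ¬ ∀ᵐ x ∂(volume.restrict Ω), c ε x * u x = 0) :
    2 ≤ gamma1 Ω (c ε) := by
  have hc : ∀ x ∈ closure Ω, ContinuousAt (c ε) x := fun x hx => (c_smooth e0 e1 hx).continuousAt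
  apply le_csInf
  · refine ⟨_, u, G, hu, ?_, rfl⟩
    have hnn : 0 ≤ᵐ[volume.restrict Ω] fun x => c ε x * u x ^ 2 := ae_of_all _ fun x =>
      mul_nonneg (c_nonneg e0 e1 x) (sq_nonneg _)
    have hi : Integrable (fun x => c ε x * u x ^ 2) (volume.restrict Ω) := by
      have hcc : ∀ x ∈ closure Ω, ContinuousAt (fun x => c ε x * u x ^ 2) x := fun x hx =>
        (hc x hx).mul ((huc x hx).pow 2)
      have hfin := finite_restrict Ω_bdd
      exact (memLp_of_contAt Ω_open Ω_bdd hcc 2).integrable (by norm_num)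
    rw [lt_iff_le_and_ne]
    refine ⟨integral_nonneg_of_ae hnn, fun heq => ?_⟩
    have hz := (integral_eq_zero_iff_of_nonneg_ae hnn hi).1 heq.symm
    apply hne
    filter_upwards [hz] with x hx
    have hx' : c ε x * u x ^ 2 = 0 := hx
    rcases mul_eq_zero.1 hx' with h1 | h1
    · rw [h1, zero_mul]
    · rw [pow_eq_zero_iff (by norm_num)] at h1
      rw [h1, mul_zero]
  · rintro R ⟨w, W, hw, hpos, rfl⟩
    rw [le_div_iff₀ hpos]
    exact ray e0 e1 hw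

/-- every eigenvalue is at least `2` -/
theorem eig_ge (e0 : 0 < ε) (e1 : ε ≤ 1 / 100) {γ : ℝ} {φ : En 2 → ℝ} {G : En 2 → En 2} (hφ : IsH10 Ω φ G)
    (hne : ¬ ∀ᵐ x ∂(volume.restrict Ω), φ x = 0)
    (heig : ∀ (v : En 2 → ℝ) (V : En 2 → En 2), IsH10 Ω v V →
      ∫ x in Ω, inner ℝ (G x) (V x) = γ * ∫ x in Ω, c ε x * φ x * v x) : 2 ≤ γ := by
  have h1 := heig φ G hφ
  have e1' : ∫ x in Ω, inner ℝ (G x) (G x) = ∫ x in Ω, ‖G x‖ ^ 2 := by
    congr 1; funext x; exact real_inner_self_eq_norm_sq _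
  have e2 : ∫ x in Ω, c ε x * φ x * φ x = ∫ x in Ω, c ε x * φ x ^ 2 := by
    congr 1; funext x; ring
  rw [e1', e2] at h1
  have h2 := ray e0 e1 hφ
  have h3 : 0 ≤ ∫ x in Ω, c ε x * φ x ^ 2 := integral_nonneg fun x =>
    mul_nonneg (c_nonneg e0 e1 x) (sq_nonneg _)
  rcases h3.lt_or_eq with h4 | h4
  · rw [h1] at h2
    exact le_of_mul_le_mul_right h2 h4
  · exfalso
    rw [← h4, mul_zero] at h1
    have h5 := poincare (by norm_num) Ω_open (R := Real.exp 1) (Real.exp_pos 1).le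
      (fun x hx => by rw [mem_closedBall_zero_iff]; exact hx.2.le) hφ
    have h6 : N2 G (volume.restrict Ω) = 0 := by
      have h := N2_sq hφ.2.1
      rw [h1] at h
      exact pow_eq_zero_iff (by norm_num) |>.1 h
    rw [h6, mul_zero] at h5
    have h7 : N2 φ (volume.restrict Ω) = 0 := le_antisymm h5 (N2_nonneg _)
    exact hne (ae_zero_of_N2 hφ.1 h7)

end Q279.TS
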