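import Pool.Agent.Q279.TS.R6

set_option autoImplicit false

open MeasureTheory Topology Filter Set
open scoped ContDiff

namespace Q279.TS

open Q61 Q61.Sob Q61.QGrad Q61.AC

theorem U_ends : U 1 = 0 ∧ U (-1) = 0 := by
  unfold U
  rw [w_one, w_neg_one]; simp

theorem U3_ends (ε : ℝ) : U3 ε 1 = 0 ∧ U3 ε (-1) = 0 := by
  unfold U3
  rw [w3_one, w3_neg_one]; simp

theorem w_half : w (1 / 2) = 34 + 125 / 8 := by
  unfold w
  rw [E_zero (t := 1 / 2) (by norm_num), E_zero (t := -(1 / 2)) (by norm_num)]; norm_num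

theorem w_neg_half : w (-(1 / 2)) = 34 - 125 / 8 := by
  unfold w
  rw [E_zero (t := -(1 / 2)) (by norm_num), E_zero (t := - -(1 / 2)) (by norm_num)]; norm_num

theorem main :
    ∃ c μ h u₀ u₁ u₂ u₃ : En 2 → ℝ, ∃ G₀ G₁ G₂ G₃ : En 2 → En 2,
      (∀ x ∈ closure Ω, ContDiffAt ℝ ∞ c x ∧ ContDiffAt ℝ ∞ μ x ∧ ContDiffAt ℝ ∞ h x) ∧
      (∀ p : ENNReal, MemLp c p (volume.restrict Ω) ∧ MemLp μ p (volume.restrict Ω) ∧
        MemLp h p (volume.restrict Ω)) ∧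
      (∀ x ∈ Ω, 0 ≤ c x ∧ 1 ≤ μ x ∧ 0 ≤ h x) ∧
      (¬ ∀ᵐ x ∂(volume.restrict Ω), h x = 0) ∧
      IsSolution Ω 0 c μ h u₀ G₀ ∧ (∀ x ∈ Ω, 0 ≤ u₀ x) ∧
      (¬ ∀ᵐ x ∂(volume.restrict Ω), c x * u₀ x = 0) ∧
      2 ≤ gamma1 Ω c ∧
      (∀ (γ : ℝ) (φ : En 2 → ℝ) (G : En 2 → En 2), IsH10 Ω φ G →
        (¬ ∀ᵐ x ∂(volume.restrict Ω), φ x = 0) →
        (∀ (v : En 2 → ℝ) (V : En 2 → En 2), IsH10 Ω v V →
          ∫ x in Ω, inner ℝ (G x) (V x) = γ * ∫ x in Ω, c x * φ x * v x) → 2 ≤ γ) ∧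
      IsSolution Ω 1 c μ h u₁ G₁ ∧ IsSolution Ω 1 c μ h u₂ G₂ ∧ IsSolution Ω 1 c μ h u₃ G₃ ∧
      (¬ ∀ᵐ x ∂(volume.restrict Ω), u₁ x = u₂ x) ∧
      (¬ ∀ᵐ x ∂(volume.restrict Ω), u₁ x = u₃ x) ∧
      (¬ ∀ᵐ x ∂(volume.restrict Ω), u₂ x = u₃ x) := by
  obtain ⟨ε, e0, e1, F, hF, F1, F2, Fnn, Fode, Fpos⟩ := exists_U0
  have sU : Sm U := fun t ht => U_smooth ht
  have sUM : Sm (fun s => U (-s)) := fun t ht => by
    have := U_smooth (t := -t) (by rwa [abs_neg])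
    exact this.comp t contDiff_neg.contDiffAt
  have sU3 : Sm (U3 ε) := fun t ht => U3_smooth e0 ht
  have s0 : IsSolution Ω 0 (c ε) (m ε) (h ε) (fun y => F (T y)) (gradient (fun y => F (T y))) := by
    apply sol_of e0 e1 hF F1 F2
    intro t ht
    rw [Fode t ht]; ring
  have s1 : IsSolution Ω 1 (c ε) (m ε) (h ε) (fun y => U (T y)) (gradient (fun y => U (T y))) := by
    apply sol_of e0 e1 sU U_ends.1 U_ends.2
    intro t ht
    rw [odeU e0 e1 ht]; ring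
  have s2 : IsSolution Ω 1 (c ε) (m ε) (h ε) (fun y => U (-T y)) (gradient (fun y => U (-T y))) := by
    apply sol_of e0 e1 (F := fun s => U (-s)) sUM U_ends.2 (by simpa using U_ends.1)
    intro t ht
    rw [odeUM e0 e1 ht]; ring
  have s3 : IsSolution Ω 1 (c ε) (m ε) (h ε) (fun y => U3 ε (T y)) (gradient (fun y => U3 ε (T y))) := by
    apply sol_of e0 e1 sU3 (U3_ends ε).1 (U3_ends ε).2
    intro t ht
    rw [odeU3 e0 e1 ht]; ring
  have cont : ∀ {g : ℝ → ℝ}, Sm g → ∀ x ∈ Ω, ContinuousAt (fun y => g (T y)) x := fun hg x hx =>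
    (F_smooth hg (subset_closure hx)).continuousAt
  have hdat : ∀ x ∈ closure Ω, ContDiffAt ℝ ∞ (c ε) x ∧ ContDiffAt ℝ ∞ (m ε) x ∧ ContDiffAt ℝ ∞ (h ε) x :=
    fun x hx => ⟨c_smooth e0 e1 hx, m_smooth e0 e1 hx, h_smooth e0 e1 hx⟩
  -- a point of the ring
  obtain ⟨t, ht, hdt⟩ := exists_dj
  obtain ⟨t0, t1⟩ := ring_pos ht
  have ht1 : t < 1 := by rw [abs_le] at ht; linarith [ht.2]
  obtain ⟨x, hx, hTx⟩ := exists_T (t := t) (by linarith) ht1
  have hx0 := ne_of_closure (subset_closure hx)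
  have hn : 0 < (‖x‖ ^ 2)⁻¹ := by have := norm_pos_iff.2 hx0; positivity
  have hhx : h ε x ≠ 0 := by
    have h1 : 0 < Hr ε t := mul_pos (mul_pos (by norm_num) hdt) (bd e0 e1 ht).H_pos
    show hT ε (T x) * (‖x‖ ^ 2)⁻¹ ≠ 0
    rw [hTx, (T_pos (ε := ε) t0).2.2]
    exact (mul_pos h1 hn).ne'
  have hcx : c ε x * F (T x) ≠ 0 := by
    have h1 : 0 < Cr ε t := mul_pos (mul_pos (by norm_num) hdt) (bd e0 e1 ht).C_pos
    show cT ε (T x) * (‖x‖ ^ 2)⁻¹ * F (T x) ≠ 0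
    rw [hTx, (T_pos (ε := ε) t0).1]
    exact (mul_pos (mul_pos h1 hn) (Fpos t ht hdt)).ne'
  have hca : ¬ ∀ᵐ x ∂(volume.restrict Ω), c ε x * F (T x) = 0 :=
    not_ae (fun y hy => (c_smooth e0 e1 (subset_closure hy)).continuousAt.mul (cont hF y hy))
      (fun _ _ => continuousAt_const) hx hcx
  have hha : ¬ ∀ᵐ x ∂(volume.restrict Ω), h ε x = 0 :=
    not_ae (fun y hy => (h_smooth e0 e1 (subset_closure hy)).continuousAt) (fun _ _ => continuousAt_const) hx hhx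
  -- distinctness
  obtain ⟨y, hy, hTy⟩ := exists_T (t := 1 / 2) (by norm_num) (by norm_num)
  have v1 : U (T y) = Real.log (34 + 125 / 8) := by rw [hTy]; unfold U; rw [w_half]
  have v2 : U (-T y) = Real.log (34 - 125 / 8) := by rw [hTy]; unfold U; rw [w_neg_half]
  have v3 : U3 ε (T y) ≤ Real.log (1 + ε) := by
    have h1 := w3_ge e0.le (t := T y) (by rw [hTy]; rw [abs_of_pos (by norm_num)]; norm_num)
    exact Real.log_le_log (by linarith) (w3_le e0.le _)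
  have l12 : Real.log (34 - 125 / 8) < Real.log (34 + 125 / 8) := Real.log_lt_log (by norm_num) (by norm_num)
  have l3 : Real.log (1 + ε) < Real.log (34 - 125 / 8) := Real.log_lt_log (by linarith) (by linarith)
  refine ⟨c ε, m ε, h ε, fun y => F (T y), fun y => U (T y), fun y => U (-T y), fun y => U3 ε (T y), _, _, _, _,
    hdat, fun p => ⟨memLp_of_contAt Ω_open Ω_bdd (fun x hx => (hdat x hx).1.continuousAt) p,
      memLp_of_contAt Ω_open Ω_bdd (fun x hx => (hdat x hx).2.1.continuousAt) p,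
      memLp_of_contAt Ω_open Ω_bdd (fun x hx => (hdat x hx).2.2.continuousAt) p⟩,
    fun x _ => ⟨c_nonneg e0 e1 x, mT_ge e0 e1 _, h_nonneg e0 e1 x⟩, hha, s0,
    fun x hx => Fnn _ (T_mem hx).le, hca,
    gamma_ge e0 e1 (H10_F hF F1 F2) (fun x hx => (F_smooth hF hx).continuousAt) hca,
    fun γ φ G hφ hne heig => eig_ge e0 e1 hφ hne heig, s1, s2, s3, ?_, ?_, ?_⟩
  · apply not_ae (fun z hz => cont sU z hz) (fun z hz => cont sUM z hz) hy
    rw [v1, v2]; exact l12.ne'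
  · apply not_ae (fun z hz => cont sU z hz) (fun z hz => cont sU3 z hz) hy
    rw [v1]; linarith
  · apply not_ae (fun z hz => cont sUM z hz) (fun z hz => cont sU3 z hz) hy
    show U (-T y) ≠ _
    rw [v2]; linarith

end Q279.TS
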